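import Pool.Agent.J6H86.SB.Model

/-!
# Invariants and first cohomology (for MP_97e538_al)
-/

set_option autoImplicit false

namespace Pool.Agent.J6H86.SB

open MvPolynomial

/-- The vectors `e_j` for odd `j` and `e_j - e_0` for even `j`. -/
def dd (g j : ℕ) : VV g := fun m =>
  (if (m : ℕ) = j then 1 else 0) - (if Even j ∧ (m : ℕ) = 0 then 1 else 0)

theorem co_single {g : ℕ} (m : Fin (2 * g)) (n : ℕ) :
    co (Pi.single m 1 : VV g) n = if (m : ℕ) = n then 1 else 0 := by
  unfold co
  by_cases h : n < 2 * g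
  · simp [h, Pi.single_apply, Fin.ext_iff, eq_comm]
  · have : (m : ℕ) ≠ n := by have := m.2; omega
    simp [h, this]

theorem ww_apply {g i : ℕ} (hi : i < 2 * g) (m : Fin (2 * g)) :
    omega (curve g i) (Pi.single m 1) =
      (if (m : ℕ) = i + 1 then 1 else 0) - (if (m : ℕ) + 1 = i then 1 else 0) := by
  rw [omega_curve hi, co_single, co_single]
  congr 1
  by_cases h0 : i = 0
  · subst h0; simp
  · rw [if_neg h0]
    by_cases h1 : (m : ℕ) + 1 = i
    · rw [if_pos h1, if_pos (by omega)]
    · rw [if_neg h1, if_neg (by omega)]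

theorem dd_mem {g : ℕ} {p : MvPolynomial (Fin (2 * g)) ℝ}
    (h : ∀ i, i + 1 < 2 * g → symAct (alpha g (sn _ i) : VV g →ₗ[ℝ] VV g) p = p) :
    ∀ j, j < 2 * g → dd g j ∈ transInv p
  | 0, _ => by
    have : dd g 0 = 0 := by
      funext m; simp [dd]
    rw [this]; exact Submodule.zero_mem _
  | 1, hj => by
    have h1 := mem_transInv_of_fix (i := 0) (by omega) (h 0 (by omega))
    have : dd g 1 = fun j => omega (curve g 0) (Pi.single j 1) := by
      funext m
      rw [ww_apply (by omega)]
      simp [dd]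
    rw [this]; exact h1
  | j + 2, hj => by
    have h1 := mem_transInv_of_fix (i := j + 1) (by omega) (h (j + 1) (by omega))
    have h2 := dd_mem h j (by omega)
    have : dd g (j + 2) = dd g j + fun l => omega (curve g (j + 1)) (Pi.single l 1) := by
      funext m
      rw [Pi.add_apply, ww_apply (by omega)]
      have e : (Even (j + 2)) ↔ Even j := by rw [Nat.even_iff, Nat.even_iff]; omega
      simp only [dd, e]
      have e2 : ((m : ℕ) + 1 = j + 1) ↔ ((m : ℕ) = j) := by omega
      simp only [e2]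
      ring
    rw [this]; exact Submodule.add_mem _ h2 h1

/-- The polynomials fixed by all transvections but the last two are multiples of powers of the last
curve. -/
theorem fix_last {g k : ℕ} (hg : 1 ≤ g) {p : MvPolynomial (Fin (2 * g)) ℝ} (hp : p.IsHomogeneous k)
    (h : ∀ i, i + 1 < 2 * g → symAct (alpha g (sn _ i) : VV g →ₗ[ℝ] VV g) p = p) :
    ∃ a : ℝ, p = C a * lin (curve g (2 * g)) ^ k := by
  let z : Fin (2 * g) := ⟨0, by omega⟩
  let e0 : VV g := Pi.single z 1
  refine ⟨(-1) ^ k * eval e0 p, ?_⟩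
  refine MvPolynomial.funext fun y => ?_
  have hs : ∑ j : Fin (2 * g), y j • dd g j ∈ transInv p :=
    Submodule.sum_mem _ fun j _ => Submodule.smul_mem _ _ (dd_mem h j j.2)
  have hy : y = (-(curve g (2 * g) ⬝ᵥ y)) • e0 + (1 : ℝ) • ∑ j : Fin (2 * g), y j • dd g j := by
    funext m
    rw [one_smul, Pi.add_apply, Finset.sum_apply, Pi.smul_apply, smul_eq_mul]
    have h1 : ∀ j : Fin (2 * g), (y j • dd g j) m =
        (if m = j then y j else 0) - (if (m : ℕ) = 0 then (if Even (j : ℕ) then y j else 0) else 0) := by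
      intro j
      simp only [Pi.smul_apply, dd, smul_eq_mul, mul_sub, mul_ite, mul_one, mul_zero, Fin.ext_iff]
      congr 1
      by_cases a1 : (m : ℕ) = 0 <;> by_cases a2 : Even (j : ℕ) <;> simp [a1, a2]
    simp only [h1, Finset.sum_sub_distrib, Finset.sum_ite_eq, Finset.mem_univ, if_true]
    have h2 : curve g (2 * g) ⬝ᵥ y = - ∑ j : Fin (2 * g), if Even (j : ℕ) then y j else 0 := by
      rw [dotProduct, ← Finset.sum_neg_distrib]
      refine Finset.sum_congr rfl fun j _ => ?_
      rw [curve_last_apply]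
      by_cases a2 : Even (j : ℕ) <;> simp [a2]
    rw [h2]
    by_cases a1 : (m : ℕ) = 0
    · have : m = z := Fin.ext a1
      subst this
      simp [e0, z]
    · have : m ≠ z := fun h0 => a1 (by rw [h0])
      simp [e0, a1, Pi.single_eq_of_ne this]
  have h3 := hs 1 ((-(curve g (2 * g) ⬝ᵥ y)) • e0)
  rw [← hy, eval_smul_homog hp] at h3
  rw [h3, map_mul, map_pow, eval_C, eval_lin, neg_pow]
  ring

theorem symAct_pow {g k : ℕ} (T : VV g →ₗ[ℝ] VV g) (a : ℝ) (v : VV g) :
    symAct T (C a * lin v ^ k) = C a * lin (T v) ^ k := by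
  rw [map_mul, map_pow, symAct_lin]
  congr 1
  exact (symAct T).commutes a

theorem alpha_tau {g : ℕ} (hg : 1 ≤ g) :
    alpha g (sn _ (2 * g - 1)) (curve g (2 * g)) = curve g (2 * g) + curve g (2 * g - 1) := by
  have h1 := omega_up (g := g) (i := 2 * g - 1) (by omega)
  have e : 2 * g - 1 + 1 = 2 * g := by omega
  rw [e] at h1
  rw [alpha_sn g (by omega), h1, one_smul]

theorem alpha_sigma {g : ℕ} (hg : 1 ≤ g) :
    alpha g (sn _ (2 * g)) (curve g (2 * g) + curve g (2 * g - 1)) = curve g (2 * g - 1) := by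
  have h1 := omega_up (g := g) (i := 2 * g - 1) (by omega)
  have e : 2 * g - 1 + 1 = 2 * g := by omega
  rw [e] at h1
  rw [alpha_sn g (by omega), ← omegaL_apply, map_add, omegaL_apply, omegaL_apply, omega_self,
    omega_anti, h1]
  simp

theorem eval_M {g : ℕ} (hg : 1 ≤ g) (y : VV g) :
    eval y (lin (curve g (2 * g - 1))) = y ⟨2 * g - 1, by omega⟩ := by
  rw [eval_lin, curve_single (by omega), single_dotProduct, one_mul]

/-- The invariants of positive degree vanish. -/
theorem fix_all {g k : ℕ} (hg : 1 ≤ g) (hk : 1 ≤ k) {p : MvPolynomial (Fin (2 * g)) ℝ}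
    (hp : p.IsHomogeneous k)
    (h : ∀ i, i < 2 * g → symAct (alpha g (sn _ i) : VV g →ₗ[ℝ] VV g) p = p) : p = 0 := by
  obtain ⟨a, ha⟩ := fix_last hg hp fun i hi => h i (by omega)
  have h1 := h (2 * g - 1) (by omega)
  rw [ha, symAct_pow] at h1
  have h2 := congrArg (eval (Pi.single ⟨2 * g - 1, by omega⟩ 1 : VV g)) h1
  have e : (alpha g (sn _ (2 * g - 1)) : VV g →ₗ[ℝ] VV g) (curve g (2 * g)) =
    curve g (2 * g) + curve g (2 * g - 1) := alpha_tau hg
  have hodd : ¬ Even (2 * g - 1) := by rw [Nat.even_iff]; omega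
  have hL : eval (Pi.single ⟨2 * g - 1, by omega⟩ 1 : VV g) (lin (curve g (2 * g))) = 0 := by
    rw [eval_lin, dotProduct_single, curve_last_apply]
    simp [hodd]
  rw [e, lin_add, map_mul, map_mul, map_pow, map_pow, map_add, eval_C, hL, eval_M hg] at h2
  have hk0 : k ≠ 0 := by omega
  simp [hk0] at h2
  rw [ha, h2]; simp

/-- Two cocycles that agree on the generators agree. -/
theorem coc_ext {n : ℕ} {M : Type} [AddCommGroup M] [Module ℝ M]
    (ρ : Representation ℝ (Braid n) M) (f f' : Braid n → M)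
    (hf : ∀ a b, f (a * b) = ρ a (f b) + f a) (hf' : ∀ a b, f' (a * b) = ρ a (f' b) + f' a)
    (h : ∀ i, i < n → f (sn n i) = f' (sn n i)) (x : Braid n) : f x = f' x := by
  have hone : ∀ F : Braid n → M, (∀ a b, F (a * b) = ρ a (F b) + F a) → F 1 = 0 := by
    intro F hF
    have := hF 1 1
    rw [mul_one, map_one] at this
    simpa using this
  have hinv : ∀ F : Braid n → M, (∀ a b, F (a * b) = ρ a (F b) + F a) → ∀ a,
      F a⁻¹ = - ρ a⁻¹ (F a) := by
    intro F hF a
    have := hF a⁻¹ a
    rw [inv_mul_cancel, hone F hF] at this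
    exact eq_neg_of_add_eq_zero_right this.symm
  let H : Subgroup (Braid n) :=
    { carrier := {a | f a = f' a}
      mul_mem' := by
        intro a b ha hb
        change f (a * b) = f' (a * b)
        rw [hf, hf', show f a = f' a from ha, show f b = f' b from hb]
      one_mem' := by
        change f 1 = f' 1
        rw [hone f hf, hone f' hf']
      inv_mem' := by
        intro a ha
        change f a⁻¹ = f' a⁻¹
        rw [hinv f hf, hinv f' hf', show f a = f' a from ha] }
  exact PresentedGroup.generated_by (braidRels n) H (fun j => by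
    have := h j j.2
    rw [sn_eq j.2] at this
    exact this) x

/-- The structure of the cocycles for odd `k`. -/
theorem coc_struct {g k : ℕ} (hg : 1 ≤ g) (hk : Odd k) (f : Braid (2 * g + 1) → SymV g k)
    (hf : ∀ a b, f (a * b) = symRep g k a (f b) + f a) :
    ∃ (m0 : SymV g k) (a : ℝ),
      (∀ i, i < 2 * g → f (sn _ i) = symRep g k (sn _ i) m0 - m0) ∧
      ((f (sn _ (2 * g)) - (symRep g k (sn _ (2 * g)) m0 - m0) : SymV g k) :
        MvPolynomial (Fin (2 * g)) ℝ) = C a * lin (curve g (2 * g)) ^ k ∧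
      a * (2 - 2 ^ k) = 0 := by
  set m0 : SymV g k := (-(1 / 2) : ℝ) • f (zz _) with hm0
  have h1 : ∀ i, i < 2 * g → f (sn _ i) = symRep g k (sn _ i) m0 - m0 := by
    intro i hi
    have h := congrArg f (zz_comm (n := 2 * g + 1) i (by omega))
    rw [hf, hf, symRep_zz hk] at h
    rw [hm0, map_smul]
    have h2 : (2 : ℝ) • f (sn _ i) = f (zz _) - symRep g k (sn _ i) (f (zz _)) := by
      rw [two_smul, eq_sub_iff_add_eq, add_assoc, add_comm (f (sn _ i)) (symRep g k _ _), h]
      abel
    calc f (sn _ i) = (1 / 2 : ℝ) • ((2 : ℝ) • f (sn _ i)) := by rw [smul_smul]; norm_num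
      _ = _ := by rw [h2]; module
  -- the corrected cocycle
  let f' : Braid (2 * g + 1) → SymV g k := fun b => f b - (symRep g k b m0 - m0)
  have hf' : ∀ a b, f' (a * b) = symRep g k a (f' b) + f' a := by
    intro a b
    simp only [f']
    rw [hf, map_mul, Module.End.mul_apply, map_sub, map_sub]
    abel
  have h0 : ∀ i, i < 2 * g → f' (sn _ i) = 0 := by
    intro i hi
    simp only [f']
    rw [h1 i hi, sub_self]
  set mm : SymV g k := f' (sn _ (2 * g)) with hmm
  have hfix : ∀ i, i + 1 < 2 * g → symRep g k (sn _ i) mm = mm := by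
    intro i hi
    have h := congrArg f' (sn_comm (n := 2 * g + 1) (i := i) (j := 2 * g) hi (by omega))
    rw [hf', hf', h0 i (by omega), map_zero, add_zero, zero_add] at h
    exact h
  obtain ⟨a, ha⟩ := fix_last hg mm.2 fun i hi => by
    have := congrArg (Subtype.val) (hfix i hi)
    exact this
  refine ⟨m0, a, h1, ha, ?_⟩
  have hb := congrArg f' (sn_braid (n := 2 * g + 1) (i := 2 * g - 1) (by omega))
  have e : 2 * g - 1 + 1 = 2 * g := by omega
  rw [e, hf', hf', hf', hf', h0 (2 * g - 1) (by omega), map_zero, map_zero, zero_add, add_zero,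
    zero_add, map_mul, Module.End.mul_apply, ← hmm] at hb
  have hb2 := congrArg (Subtype.val) hb
  have hτ : ((symRep g k (sn _ (2 * g - 1)) mm : SymV g k) : MvPolynomial (Fin (2 * g)) ℝ) =
      C a * lin (curve g (2 * g) + curve g (2 * g - 1)) ^ k := by
    rw [symRep_coe, ha, symAct_pow]
    have : (alpha g (sn _ (2 * g - 1)) : VV g →ₗ[ℝ] VV g) (curve g (2 * g)) =
      curve g (2 * g) + curve g (2 * g - 1) := alpha_tau hg
    rw [this]
  have hσ : ((symRep g k (sn _ (2 * g)) (symRep g k (sn _ (2 * g - 1)) mm) : SymV g k) :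
      MvPolynomial (Fin (2 * g)) ℝ) = C a * lin (curve g (2 * g - 1)) ^ k := by
    rw [symRep_coe, hτ, symAct_pow]
    have : (alpha g (sn _ (2 * g)) : VV g →ₗ[ℝ] VV g) (curve g (2 * g) + curve g (2 * g - 1)) =
      curve g (2 * g - 1) := alpha_sigma hg
    rw [this]
  have hb3 : C a * lin (curve g (2 * g) + curve g (2 * g - 1)) ^ k =
      C a * lin (curve g (2 * g - 1)) ^ k + C a * lin (curve g (2 * g)) ^ k := by
    rw [← hτ, ← hσ, ← ha]
    exact hb2
  let y : VV g := Pi.single ⟨2 * g - 1, by omega⟩ 1 - Pi.single ⟨0, by omega⟩ 1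
  have hodd : ¬ Even (2 * g - 1) := by rw [Nat.even_iff]; omega
  have hL : eval y (lin (curve g (2 * g))) = 1 := by
    rw [eval_lin, dotProduct_sub, dotProduct_single, dotProduct_single, curve_last_apply,
      curve_last_apply]
    simp [hodd]
  have hM : eval y (lin (curve g (2 * g - 1))) = 1 := by
    rw [eval_M hg]
    have : 2 * g - 1 ≠ 0 := by omega
    simp [y, this]
  have h5 := congrArg (eval y) hb3
  rw [lin_add, map_add, map_mul, map_mul, map_mul, map_pow, map_pow, map_pow, map_add, eval_C, hL,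
    hM] at h5
  norm_num at h5
  rcases h5 with h5
  linarith

end Pool.Agent.J6H86.SB
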