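import Pool.Agent.J6H86.SB.Coh

/-!
# Group cohomology in degrees 0 and 1 (for MP_97e538_al)
-/

set_option autoImplicit false

namespace Pool.Agent.J6H86.SB

open MvPolynomial groupCohomology CategoryTheory

/-- The vectors of the affine chain. -/
def cP (g i : ℕ) : VV g × ℝ := (curve g i, 0)

/-- The functionals of the affine chain. -/
def lamP (g i : ℕ) : VV g × ℝ →ₗ[ℝ] ℝ :=
  (omegaL (curve g i)).comp (LinearMap.fst ℝ (VV g) ℝ) +
    (if i = 2 * g then 1 else 0 : ℝ) • LinearMap.snd ℝ (VV g) ℝ

theorem lamP_apply (g i : ℕ) (x : VV g) (t : ℝ) :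
    lamP g i (x, t) = omega (curve g i) x + (if i = 2 * g then 1 else 0) * t := rfl

theorem isChainP (g : ℕ) : IsChain (2 * g + 1) (cP g) (lamP g) where
  self i h := by rw [cP, lamP_apply, omega_self]; simp
  up i h := by rw [cP, lamP_apply, omega_up h]; simp
  down i h := by rw [cP, lamP_apply, omega_anti, omega_up h]; simp
  far i j h hj := by rw [cP, lamP_apply, omega_far h hj]; simp
  far' i j h hj := by rw [cP, lamP_apply, omega_anti, omega_far h hj]; simp

/-- The cocycle with values in `H_1(Σ_g; ℝ)` that sends the last generator to the last curve and the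
other generators to zero. -/
def aff (g : ℕ) (b : Braid (2 * g + 1)) : VV g := ((isChainP g).rep b (0, 1)).1

theorem repP_apply (g : ℕ) (b : Braid (2 * g + 1)) :
    ∀ (x : VV g) (t : ℝ), (isChainP g).rep b (x, t) = (alpha g b x + t • aff g b, t) := by
  let H : Subgroup (Braid (2 * g + 1)) :=
    { carrier := {b | ∀ (x : VV g) (t : ℝ),
        (isChainP g).rep b (x, t) = (alpha g b x + t • aff g b, t)}
      mul_mem' := by
        intro a b ha hb x t
        have h1 : aff g (a * b) = alpha g a (aff g b) + aff g a := by
          change ((isChainP g).rep (a * b) (0, 1)).1 = _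
          rw [map_mul, LinearEquiv.mul_apply, hb 0 1, ha]
          simp
        rw [map_mul, LinearEquiv.mul_apply, hb x t, ha, map_mul, LinearEquiv.mul_apply, h1]
        simp only [map_add, map_smul, smul_add, add_assoc]
      one_mem' := by
        intro x t
        simp [aff]
      inv_mem' := by
        intro a ha x t
        have key : ∀ (x : VV g) (t : ℝ), (isChainP g).rep a⁻¹ (x, t) =
            ((alpha g a).symm (x - t • aff g a), t) := by
          intro x t
          rw [map_inv]
          change ((isChainP g).rep a).symm (x, t) = _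
          rw [LinearEquiv.symm_apply_eq, ha]
          simp
        have h1 : aff g a⁻¹ = (alpha g a).symm (- aff g a) := by
          change ((isChainP g).rep a⁻¹ (0, 1)).1 = _
          rw [key]
          simp
        rw [key, h1, map_inv]
        change _ = ((alpha g a).symm x + t • (alpha g a).symm (-aff g a), t)
        rw [map_sub, map_smul, map_neg, smul_neg, sub_eq_add_neg] }
  refine PresentedGroup.generated_by (braidRels (2 * g + 1)) H (fun j => ?_) b
  change ∀ (x : VV g) (t : ℝ), (isChainP g).rep (sg j) (x, t) =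
    (alpha g (sg j) x + t • aff g (sg j), t)
  intro x t
  have e1 : ∀ (x : VV g) (t : ℝ), (isChainP g).rep (sg j) (x, t) =
      (x + (omega (curve g j) x + (if (j : ℕ) = 2 * g then 1 else 0) * t) • curve g j, t) := by
    intro x t
    rw [(isChainP g).rep_sg, tv_apply, lamP_apply, cP]
    simp
  have e2 : alpha g (sg j) x = x + omega (curve g j) x • curve g j := by
    have := alpha_sn g j.2 x
    rwa [sn_eq j.2] at this
  have e3 : aff g (sg j) = (if (j : ℕ) = 2 * g then 1 else 0 : ℝ) • curve g j := by
    change ((isChainP g).rep (sg j) (0, 1)).1 = _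
    rw [e1, ← omegaL_apply, map_zero]
    simp
  rw [e1, e2, e3]
  congr 1
  module

theorem aff_mul (g : ℕ) (a b : Braid (2 * g + 1)) :
    aff g (a * b) = alpha g a (aff g b) + aff g a := by
  have h := repP_apply g b 0 1
  have h2 := repP_apply g a
  change ((isChainP g).rep (a * b) (0, 1)).1 = _
  rw [map_mul, LinearEquiv.mul_apply, h, h2]
  simp

theorem aff_sn (g : ℕ) {i : ℕ} (h : i < 2 * g + 1) :
    aff g (sn _ i) = (if i = 2 * g then 1 else 0 : ℝ) • curve g i := by
  change ((isChainP g).rep (sn _ i) (0, 1)).1 = _
  rw [(isChainP g).rep_sn h, lamP_apply, ← omegaL_apply, map_zero, cP]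
  by_cases hi : i = 2 * g <;> simp [hi]

/-- The cocycle `aff` with values in the first symmetric power. -/
noncomputable def affS (g : ℕ) (b : Braid (2 * g + 1)) : SymV g 1 := ⟨lin (aff g b), lin_homog _⟩

theorem affS_mul (g : ℕ) (a b : Braid (2 * g + 1)) :
    affS g (a * b) = symRep g 1 a (affS g b) + affS g a := by
  refine Subtype.ext ?_
  change lin (aff g (a * b)) = symAct (alpha g a : VV g →ₗ[ℝ] VV g) (lin (aff g b)) + lin (aff g a)
  rw [aff_mul, lin_add, symAct_lin]
  rfl

/-- `H⁰ = 0` in positive degrees. -/
theorem h0 {g k : ℕ} (hg : 1 ≤ g) (hk : 1 ≤ k) :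
    Subsingleton (groupCohomology (Rep.of (symRep g k)) 0) := by
  have e := (groupCohomology.H0Iso (Rep.of (symRep g k))).toLinearEquiv
  refine e.toEquiv.subsingleton_congr.2 ⟨fun p q => ?_⟩
  have key : ∀ p : (Rep.of (symRep g k)).ρ.invariants, p = 0 := by
    rintro ⟨p, hp⟩
    refine Subtype.ext (Subtype.ext ?_)
    exact fix_all hg hk p.2 fun i _ => congrArg Subtype.val (hp (sn _ i))
  rw [key p, key q]

/-- `H¹ = 0` for odd `k ≥ 3`. -/
theorem h1_odd {g k : ℕ} (hg : 1 ≤ g) (hk : Odd k) (hk3 : 3 ≤ k) :
    Subsingleton (groupCohomology (Rep.of (symRep g k)) 1) := by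
  refine subsingleton_of_forall_eq 0 fun x => ?_
  induction x using H1_induction_on with
  | h f =>
    have hf : ∀ a b, f (a * b) = symRep g k a (f b) + f a := (mem_cocycles₁_iff f).1 f.2
    obtain ⟨m0, a, h1, h2, h3⟩ := coc_struct hg hk f hf
    have h8 : (2 : ℝ) ^ 3 ≤ 2 ^ k := pow_le_pow_right₀ (by norm_num) hk3
    have ha : a = 0 := by
      rcases mul_eq_zero.1 h3 with h | h
      · exact h
      · exfalso; norm_num at h8; linarith
    rw [ha, C_0, zero_mul] at h2
    have h4 : f (sn _ (2 * g)) = symRep g k (sn _ (2 * g)) m0 - m0 := by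
      rw [← sub_eq_zero]
      exact Subtype.ext h2
    rw [H1π_eq_zero_iff]
    refine ⟨m0, ?_⟩
    funext b
    change symRep g k b m0 - m0 = f b
    refine (coc_ext (symRep g k) f (fun b => symRep g k b m0 - m0) hf ?_ ?_ b).symm
    · intro a b
      rw [map_mul, Module.End.mul_apply, map_sub]
      abel
    · intro i hi
      rcases Nat.lt_or_ge i (2 * g) with h | h
      · exact h1 i h
      · obtain rfl : i = 2 * g := by omega
        exact h4

/-- `H¹` is one-dimensional for `k = 1`. -/
theorem h1_one {g : ℕ} (hg : 1 ≤ g) :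
    Module.finrank ℝ (groupCohomology (Rep.of (symRep g 1)) 1) = 1 := by
  have hA : affS g ∈ cocycles₁ (Rep.of (symRep g 1)) :=
    (mem_cocycles₁_iff (A := Rep.of (symRep g 1)) _).2 (affS_mul g)
  rw [finrank_eq_one_iff']
  refine ⟨H1π _ ⟨affS g, hA⟩, ?_, ?_⟩
  · intro h
    rw [H1π_eq_zero_iff] at h
    obtain ⟨m0, hm0⟩ := h
    have hm : ∀ b, symRep g 1 b m0 - m0 = affS g b := fun b => congrFun hm0 b
    have hz : (m0 : MvPolynomial (Fin (2 * g)) ℝ) = 0 := by
      refine fix_all hg le_rfl m0.2 fun i hi => ?_
      have h1 := hm (sn _ i)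
      have h2 : affS g (sn _ i) = 0 := by
        refine Subtype.ext ?_
        change lin (aff g (sn _ i)) = 0
        rw [aff_sn g (by omega), if_neg (by omega), zero_smul]
        simp [lin]
      rw [h2, sub_eq_zero] at h1
      exact congrArg Subtype.val h1
    have h1 := hm (sn _ (2 * g))
    have hz' : m0 = 0 := Subtype.ext hz
    rw [hz', map_zero, sub_zero] at h1
    have h2 := congrArg Subtype.val h1
    change (0 : MvPolynomial (Fin (2 * g)) ℝ) = lin (aff g (sn _ (2 * g))) at h2
    rw [aff_sn g (by omega), if_pos rfl, one_smul] at h2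
    have h3 := congrArg (eval (Pi.single ⟨0, by omega⟩ 1 : VV g)) h2
    rw [eval_lin, dotProduct_single, curve_last_apply] at h3
    simp at h3
  · intro w
    induction w using H1_induction_on with
    | h f =>
      have hf : ∀ a b, f (a * b) = symRep g 1 a (f b) + f a := (mem_cocycles₁_iff f).1 f.2
      obtain ⟨m0, a, h1, h2, -⟩ := coc_struct hg odd_one f hf
      refine ⟨a, ?_⟩
      rw [← map_smul, H1π_eq_iff]
      refine ⟨-m0, ?_⟩
      funext b
      change symRep g 1 b (-m0) - (-m0) = a • affS g b - f b
      have key := coc_ext (symRep g 1) f (fun b => symRep g 1 b m0 - m0 + a • affS g b) hf ?_ ?_ b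
      · rw [key, map_neg]; abel
      · intro a' b'
        rw [map_mul, Module.End.mul_apply, map_add, map_sub, map_smul, affS_mul, smul_add]
        abel
      · intro i hi
        rcases Nat.lt_or_ge i (2 * g) with h | h
        · have h3 : affS g (sn _ i) = 0 := by
            refine Subtype.ext ?_
            change lin (aff g (sn _ i)) = 0
            rw [aff_sn g (by omega), if_neg (by omega), zero_smul]
            simp [lin]
          simp only []
          rw [h3, smul_zero, add_zero]
          exact h1 i h
        · obtain rfl : i = 2 * g := by omega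
          have h3 : f (sn _ (2 * g)) - (symRep g 1 (sn _ (2 * g)) m0 - m0) =
              a • affS g (sn _ (2 * g)) := by
            refine Subtype.ext ?_
            rw [h2]
            change _ = a • lin (aff g (sn _ (2 * g)))
            rw [aff_sn g (by omega), if_pos rfl, one_smul, pow_one, smul_eq_C_mul]
          simp only []
          rw [← h3]; abel

end Pool.Agent.J6H86.SB
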