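import Mathlib

/-!
# A functional equation (for MP_97e538_al)
-/

set_option autoImplicit false

namespace Pool.Agent.J6H86.SB

open Polynomial

/-- A polynomial `a` with `2^(k-1) a(X) = a(2X) + a(2X-1)` and `a(0) = 0` vanishes, `k` even. -/
theorem poly_double {k : ℕ} (hk : Even k) (hk2 : 2 ≤ k) (a : ℝ[X])
    (h : C ((2 : ℝ) ^ (k - 1)) * a = a.comp (C 2 * X) + a.comp (C 2 * X - 1))
    (h0 : a.eval 0 = 0) : a = 0 := by
  -- the degree of a nonzero solution is `k - 2`
  have deg : ∀ b : ℝ[X], b ≠ 0 →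
      C ((2 : ℝ) ^ (k - 1)) * b = b.comp (C 2 * X) + b.comp (C 2 * X - 1) → b.natDegree = k - 2 := by
    intro b hb hbe
    have hc := congrArg (fun q => q.coeff b.natDegree) hbe
    have d1 : (C (2 : ℝ) * X).natDegree = 1 := natDegree_C_mul_X 2 (by norm_num)
    have d2 : (C (2 : ℝ) * X - 1).natDegree = 1 := by
      rw [show (C (2 : ℝ) * X - 1) = C 2 * X + C (-1) by simp [sub_eq_add_neg]]
      exact natDegree_linear (by norm_num)
    have l1 : (C (2 : ℝ) * X).leadingCoeff = 2 := by
      rw [leadingCoeff, d1]; simp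
    have l2 : (C (2 : ℝ) * X - 1).leadingCoeff = 2 := by
      rw [leadingCoeff, d2]; simp [coeff_one]
    have n1 : (b.comp (C 2 * X)).natDegree = b.natDegree := by
      rw [natDegree_comp, d1, mul_one]
    have n2 : (b.comp (C 2 * X - 1)).natDegree = b.natDegree := by
      rw [natDegree_comp, d2, mul_one]
    have c1 : (b.comp (C 2 * X)).coeff b.natDegree = b.leadingCoeff * 2 ^ b.natDegree := by
      conv_lhs => rw [← n1]
      rw [coeff_natDegree, leadingCoeff_comp (by rw [d1]; norm_num), l1]
    have c2 : (b.comp (C 2 * X - 1)).coeff b.natDegree = b.leadingCoeff * 2 ^ b.natDegree := by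
      conv_lhs => rw [← n2]
      rw [coeff_natDegree, leadingCoeff_comp (by rw [d2]; norm_num), l2]
    simp only [coeff_C_mul, coeff_add, c1, c2, coeff_natDegree] at hc
    have hl : b.leadingCoeff ≠ 0 := leadingCoeff_ne_zero.2 hb
    have h3 : (2 : ℝ) ^ (k - 1) = 2 ^ (b.natDegree + 1) := by
      have : b.leadingCoeff * (2 : ℝ) ^ (k - 1) = b.leadingCoeff * 2 ^ (b.natDegree + 1) := by
        rw [mul_comm, hc]; ring
      exact mul_left_cancel₀ hl this
    have h4 : k - 1 = b.natDegree + 1 := by
      have := (pow_right_injective₀ (by norm_num : (0 : ℝ) < 2) (by norm_num)) h3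
      exact this
    omega
  -- the explicit solution
  let e : ℝ[X] := X ^ (k - 1) - (X - 1) ^ (k - 1)
  have he : C ((2 : ℝ) ^ (k - 1)) * e = e.comp (C 2 * X) + e.comp (C 2 * X - 1) := by
    simp only [e, sub_comp, pow_comp, X_comp, one_comp]
    have h1 : (C (2 : ℝ) * X - 1 - 1) ^ (k - 1) = C ((2 : ℝ) ^ (k - 1)) * (X - 1) ^ (k - 1) := by
      rw [C_pow, ← mul_pow]
      congr 1
      have : (C (2 : ℝ)) = 1 + 1 := by
        rw [← C_1, ← C_add]; norm_num
      rw [this]; ring
    rw [h1, mul_pow, ← C_pow]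
    ring
  have he0 : e.eval 0 = 1 := by
    have hodd : Odd (k - 1) := by
      obtain ⟨r, hr⟩ := hk
      exact ⟨r - 1, by omega⟩
    have : (0 : ℝ) ^ (k - 1) = 0 := zero_pow (by omega)
    simp [e, this, hodd.neg_one_pow]
  have hene : e ≠ 0 := by
    intro h
    rw [h] at he0
    simp at he0
  have hed := deg e hene he
  have hec : e.coeff (k - 2) ≠ 0 := by
    rw [← hed, coeff_natDegree]
    exact leadingCoeff_ne_zero.2 hene
  let c : ℝ := a.coeff (k - 2) / e.coeff (k - 2)
  have hz : a - C c * e = 0 := by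
    by_contra hne
    have h5 := deg _ hne (by
      rw [mul_sub, h, sub_comp, sub_comp, mul_comp, mul_comp, C_comp, C_comp,
        show C ((2 : ℝ) ^ (k - 1)) * (C c * e) = C c * (C ((2 : ℝ) ^ (k - 1)) * e) by ring, he]
      ring)
    have h6 : (a - C c * e).coeff (a - C c * e).natDegree = 0 := by
      rw [h5, coeff_sub, coeff_C_mul]
      simp only [c]
      field_simp
      ring
    rw [coeff_natDegree] at h6
    exact hne (leadingCoeff_eq_zero.1 h6)
  have ha : a = C c * e := sub_eq_zero.1 hz
  have hc0 : c = 0 := by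
    rw [ha, eval_mul, eval_C, he0, mul_one] at h0
    exact h0
  rw [ha, hc0]; simp

/-- **The functional equation.** -/
theorem funeq {k : ℕ} (hk : Even k) (hk2 : 2 ≤ k) (G : ℝ → ℝ → ℝ)
    (hom : ∀ t x y, G (t * x) (t * y) = t ^ k * G x y)
    (hG0 : ∀ y, G 0 y = 0)
    (h01 : ∀ x y, G x y + G (x - y) x = G x (x + y))
    (hM : ∀ b, ∃ m : ℝ → ℝ → ℝ, ∀ x y s,
      G x y + m (x - y) s + G (x - y) (x - b) = m x s + G x (x + y - b) + m (b - y) (s + b - x))
    (hpoly : ∃ a : ℝ[X], ∀ x, a.eval x = G x 1) : ∀ x y, G x y = 0 := by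
  have hGx : ∀ x, G x 0 = 0 := by
    intro x
    have := h01 x 0
    simp only [sub_zero, add_zero] at this
    linarith
  have hneg : ∀ x y, G (-x) (-y) = G x y := by
    intro x y
    have := hom (-1) x y
    rw [hk.neg_one_pow, one_mul] at this
    simpa using this
  -- elimination of `m`
  let R : ℝ → ℝ → ℝ → ℝ := fun b x y => G x (x + y - b) - G x y - G (x - y) (x - b)
  have hR : ∀ b x y t, R b x y = R b x t + R b (b - y) (t - y) - R b (x - y) (t - y) := by
    intro b x y t
    obtain ⟨m, hm⟩ := hM b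
    have e1 := hm x y 0
    have e2 := hm x t 0
    have e3 := hm (b - y) (t - y) (b - x)
    have e4 := hm (x - y) (t - y) 0
    have q1 : b - y - (t - y) = b - t := by ring
    have q2 : x - y - (t - y) = x - t := by ring
    have q3 : b - (t - y) = b - t + y := by ring
    have q4 : b - x + b - (b - y) = b - x + y := by ring
    have q5 : (0 : ℝ) + b - (x - y) = b - x + y := by ring
    have q6 : (0 : ℝ) + b - x = b - x := by ring
    simp only [q1, q2, q3, q4, q5, q6] at e1 e2 e3 e4
    simp only [R, q1, q2]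
    linarith
  -- the special case `x = 0`, `t = 0`
  have hS0 : ∀ b y, G (b - y) (-(2 * y)) - 2 * G (b - y) (-y) - 2 * G (-b) y + G y y = 0 := by
    intro b y
    have h1 := hR b 0 y 0
    simp only [R] at h1
    have q1 : b - y + (0 - y) - b = -(2 * y) := by ring
    have q2 : b - y - (0 - y) = b := by ring
    have q3 : b - y - b = -y := by ring
    have q4 : (0 : ℝ) - y + (0 - y) - b = -(2 * y + b) := by ring
    have q5 : (0 : ℝ) - y - (0 - y) = 0 := by ring
    have q6 : (0 : ℝ) - y = -y := by ring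
    have q7 : (0 : ℝ) - b = -b := by ring
    have p1 : b - y + -y - b = -(2 * y) := by ring
    have p2 : b - y - -y = b := by ring
    have p3 : -y + -y - b = -(2 * y + b) := by ring
    have p4 : -y - -y = 0 := by ring
    have p5 : b + -y = b - y := by ring
    have p6 : -y - b = -(y + b) := by ring
    simp only [q1, q2, q3, q4, q5, q6, q7, p1, p2, p3, p4, hG0, sub_zero] at h1
    have h2 := h01 y (y + b)
    have h3 := h01 y b
    have q8 : y - (y + b) = -b := by ring
    have q9 : y + (y + b) = 2 * y + b := by ring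
    rw [q8, q9] at h2
    have h4 := hneg y b
    have h5 := hneg y (2 * y + b)
    have h6 := hneg y y
    have h7 := hneg b (-y)
    have h8 := hneg (b - y) (-y)
    rw [neg_neg] at h7 h8
    have q10 : -(b - y) = y - b := by ring
    rw [q10] at h8
    linarith
  have hS : ∀ x y, G x (2 * y) = 2 * G x y + 2 * G (x - y) y - G y y := by
    intro x y
    have h1 := hS0 (y - x) y
    have q1 : y - x - y = -x := by ring
    have q2 : -(y - x) = x - y := by ring
    rw [q1, q2, hneg, hneg] at h1
    linarith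
  have hε : G 1 1 = 0 := by
    have h1 := hS 0 1
    have h2 := h01 1 (-1)
    have h3 := hS 2 1
    have h4 := hom 2 1 1
    have h5 := hneg 1 (-1)
    rw [neg_neg] at h5
    norm_num [hG0, hGx] at h1 h2 h3 h4
    rw [h4] at h3
    have h6 : (2 : ℝ) ^ k ≠ 0 := by positivity
    have h7 : (2 : ℝ) ^ k * G 1 1 = 0 := by linarith
    exact (mul_eq_zero.1 h7).resolve_left h6
  have hyy : ∀ y, G y y = 0 := by
    intro y
    have := hom y 1 1
    rw [mul_one, hε, mul_zero] at this
    exact this
  obtain ⟨a, ha⟩ := hpoly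
  have ha0 : a = 0 := by
    refine poly_double hk hk2 a ?_ (by rw [ha, hG0])
    refine Polynomial.funext fun x => ?_
    simp only [eval_mul, eval_C, eval_add, eval_comp, eval_X, eval_sub, eval_one, ha]
    have h1 := hS x (1 / 2)
    rw [hyy] at h1
    have h2 := hom 2 x (1 / 2)
    have h3 := hom 2 (x - 1 / 2) (1 / 2)
    have q1 : (2 : ℝ) * (1 / 2) = 1 := by norm_num
    have q2 : (2 : ℝ) * (x - 1 / 2) = 2 * x - 1 := by ring
    rw [q1] at h1 h2 h3
    rw [q2] at h3
    have h4 : (2 : ℝ) ^ k = 2 ^ (k - 1) * 2 := by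
      rw [← pow_succ]; congr 1; omega
    rw [h2, h3, h1, h4]
    ring
  have hG1 : ∀ x, G x 1 = 0 := by
    intro x
    rw [← ha, ha0, eval_zero]
  intro x y
  by_cases hy : y = 0
  · rw [hy, hGx]
  · have h1 := hom y (x / y) 1
    rw [hG1, mul_zero, mul_one, mul_div_cancel₀ _ hy] at h1
    exact h1

end Pool.Agent.J6H86.SB
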