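import Mathlib

/-!
# The braid group, chains of curves and transvections (for MP_97e538_al)
-/

set_option autoImplicit false

namespace Pool.Agent.J6H86.SB

/-- The relators of the Artin braid group with generators `σ_0, …, σ_{n-1}`. -/
def braidRels (n : ℕ) : Set (FreeGroup (Fin n)) :=
  {r | ∃ i j : Fin n, (i : ℕ) + 1 = (j : ℕ) ∧
      r = FreeGroup.of i * FreeGroup.of j * FreeGroup.of i *
        (FreeGroup.of j * FreeGroup.of i * FreeGroup.of j)⁻¹} ∪
  {r | ∃ i j : Fin n, (i : ℕ) + 1 < (j : ℕ) ∧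
      r = FreeGroup.of i * FreeGroup.of j * (FreeGroup.of j * FreeGroup.of i)⁻¹}

/-- The Artin braid group on `n + 1` strands (it has `n` standard generators). -/
abbrev Braid (n : ℕ) : Type := PresentedGroup (braidRels n)

/-- The standard generators. -/
def sg {n : ℕ} (i : Fin n) : Braid n := PresentedGroup.of i

/-- The standard generators with a natural number as index (`1` if the index is too large). -/
def sn (n i : ℕ) : Braid n := if h : i < n then sg ⟨i, h⟩ else 1

theorem sn_eq {n i : ℕ} (h : i < n) : sn n i = sg ⟨i, h⟩ := by simp [sn, h]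

theorem sg_braid {n : ℕ} (i j : Fin n) (h : (i : ℕ) + 1 = j) :
    sg i * sg j * sg i = sg j * sg i * sg j := by
  have h1 : PresentedGroup.mk (braidRels n) (FreeGroup.of i * FreeGroup.of j * FreeGroup.of i *
        (FreeGroup.of j * FreeGroup.of i * FreeGroup.of j)⁻¹) = 1 :=
    PresentedGroup.one_of_mem (Or.inl ⟨i, j, h, rfl⟩)
  simp only [map_mul, map_inv] at h1
  exact mul_inv_eq_one.1 h1

theorem sg_comm {n : ℕ} (i j : Fin n) (h : (i : ℕ) + 1 < j) :
    sg i * sg j = sg j * sg i := by
  have h1 : PresentedGroup.mk (braidRels n) (FreeGroup.of i * FreeGroup.of j *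
        (FreeGroup.of j * FreeGroup.of i)⁻¹) = 1 :=
    PresentedGroup.one_of_mem (Or.inr ⟨i, j, h, rfl⟩)
  simp only [map_mul, map_inv] at h1
  exact mul_inv_eq_one.1 h1

theorem sn_braid {n i : ℕ} (h : i + 1 < n) :
    sn n i * sn n (i + 1) * sn n i = sn n (i + 1) * sn n i * sn n (i + 1) := by
  rw [sn_eq h, sn_eq (by omega : i < n)]
  exact sg_braid _ _ rfl

theorem sn_comm {n i j : ℕ} (h : i + 1 < j) (hj : j < n) :
    sn n i * sn n j = sn n j * sn n i := by
  rw [sn_eq hj, sn_eq (by omega : i < n)]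
  exact sg_comm _ _ h

/-- `σ_0 σ_1 ⋯ σ_{m-1}`. -/
def Qp (n : ℕ) : ℕ → Braid n
  | 0 => 1
  | m + 1 => Qp n m * sn n m

/-- `σ_{m-1} ⋯ σ_1 σ_0`. -/
def Pp (n : ℕ) : ℕ → Braid n
  | 0 => 1
  | m + 1 => sn n m * Pp n m

theorem Qp_comm {n : ℕ} : ∀ m j : ℕ, m < j → j < n → sn n j * Qp n m = Qp n m * sn n j
  | 0, j, _, _ => by simp [Qp]
  | m + 1, j, h, hj => by
    rw [Qp, ← mul_assoc, Qp_comm m j (by omega) hj, mul_assoc, ← sn_comm (by omega) hj, mul_assoc]

theorem Pp_comm {n : ℕ} : ∀ m j : ℕ, m < j → j < n → sn n j * Pp n m = Pp n m * sn n j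
  | 0, j, _, _ => by simp [Pp]
  | m + 1, j, h, hj => by
    rw [Pp, ← mul_assoc, ← sn_comm (by omega) hj, mul_assoc, Pp_comm m j (by omega) hj, mul_assoc]

theorem Qp_shift {n : ℕ} : ∀ m j : ℕ, j + 1 < m → m ≤ n →
    sn n (j + 1) * Qp n m = Qp n m * sn n j
  | 0, j, h, _ => by omega
  | m + 1, j, h, hm => by
    rcases Nat.lt_or_ge (j + 1) m with h1 | h1
    · rw [Qp, ← mul_assoc, Qp_shift m j h1 (by omega), mul_assoc,
        sn_comm (by omega : j + 1 < m) (by omega), mul_assoc]
    · obtain rfl : m = j + 1 := by omega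
      rw [Qp, Qp]
      calc sn n (j + 1) * (Qp n j * sn n j * sn n (j + 1))
          = (sn n (j + 1) * Qp n j) * sn n j * sn n (j + 1) := by simp only [mul_assoc]
        _ = Qp n j * (sn n (j + 1) * sn n j * sn n (j + 1)) := by
            rw [Qp_comm j (j + 1) (by omega) (by omega)]; simp only [mul_assoc]
        _ = Qp n j * (sn n j * sn n (j + 1) * sn n j) := by rw [sn_braid (by omega)]
        _ = Qp n j * sn n j * sn n (j + 1) * sn n j := by simp only [mul_assoc]

theorem Pp_shift {n : ℕ} : ∀ m j : ℕ, j + 1 < m → m ≤ n →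
    sn n j * Pp n m = Pp n m * sn n (j + 1)
  | 0, j, h, _ => by omega
  | m + 1, j, h, hm => by
    rcases Nat.lt_or_ge (j + 1) m with h1 | h1
    · rw [Pp, ← mul_assoc, sn_comm (by omega : j + 1 < m) (by omega), mul_assoc,
        Pp_shift m j h1 (by omega), mul_assoc]
    · obtain rfl : m = j + 1 := by omega
      rw [Pp, Pp]
      calc sn n j * (sn n (j + 1) * (sn n j * Pp n j))
          = (sn n j * sn n (j + 1) * sn n j) * Pp n j := by simp only [mul_assoc]
        _ = sn n (j + 1) * sn n j * (sn n (j + 1) * Pp n j) := by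
            rw [sn_braid (by omega)]; simp only [mul_assoc]
        _ = sn n (j + 1) * (sn n j * Pp n j) * sn n (j + 1) := by
            rw [Pp_comm j (j + 1) (by omega) (by omega)]; simp only [mul_assoc]

/-- The element `σ_{n-1} ⋯ σ_1 σ_0 σ_0 σ_1 ⋯ σ_{n-1}`; it commutes with `σ_0, …, σ_{n-2}`. -/
def zz (n : ℕ) : Braid n := Pp n n * Qp n n

theorem zz_comm {n : ℕ} (j : ℕ) (h : j + 1 < n) : sn n j * zz n = zz n * sn n j := by
  rw [zz, ← mul_assoc, Pp_shift n j h le_rfl, mul_assoc, Qp_shift n j h le_rfl, mul_assoc]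

section transvections

variable {U : Type} [AddCommGroup U] [Module ℝ U]

/-- The transvection `x ↦ x + l x • c`, where `l c = 0`. -/
def tv (c : U) (l : U →ₗ[ℝ] ℝ) (h : l c = 0) : U ≃ₗ[ℝ] U where
  toFun x := x + l x • c
  map_add' x y := by simp only [map_add, add_smul]; abel
  map_smul' r x := by simp [smul_smul]
  invFun x := x - l x • c
  left_inv x := by simp [h]
  right_inv x := by simp [h]

@[simp] theorem tv_apply (c : U) (l : U →ₗ[ℝ] ℝ) (h : l c = 0) (x : U) :
    tv c l h x = x + l x • c := rfl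

/-- The relations of a chain of `n` curves, on the level of vectors `c i` and functionals `lam i`. -/
structure IsChain (n : ℕ) (c : ℕ → U) (lam : ℕ → U →ₗ[ℝ] ℝ) : Prop where
  self : ∀ i < n, lam i (c i) = 0
  up : ∀ i, i + 1 < n → lam i (c (i + 1)) = 1
  down : ∀ i, i + 1 < n → lam (i + 1) (c i) = -1
  far : ∀ i j, i + 1 < j → j < n → lam i (c j) = 0
  far' : ∀ i j, i + 1 < j → j < n → lam j (c i) = 0

variable {n : ℕ} {c : ℕ → U} {lam : ℕ → U →ₗ[ℝ] ℝ}

theorem IsChain.rels (H : IsChain n c lam) (r : FreeGroup (Fin n)) (hr : r ∈ braidRels n) :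
    FreeGroup.lift (fun i : Fin n => tv (c i) (lam i) (H.self i i.2)) r = 1 := by
  rcases hr with ⟨i, j, h, rfl⟩ | ⟨i, j, h, rfl⟩
  · simp only [map_mul, map_inv, FreeGroup.lift_apply_of]
    rw [mul_inv_eq_one]
    have h1 := H.up i (by omega)
    have h2 := H.down i (by omega)
    have h3 := H.self i i.2
    have h4 := H.self j j.2
    rw [h] at h1 h2
    ext x
    simp only [LinearEquiv.mul_apply, tv_apply, map_add, map_smul, h1, h2, h3, h4]
    module
  · simp only [map_mul, map_inv, FreeGroup.lift_apply_of]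
    rw [mul_inv_eq_one]
    have h1 := H.far i j h j.2
    have h2 := H.far' i j h j.2
    ext x
    simp only [LinearEquiv.mul_apply, tv_apply, map_add, map_smul, h1, h2]
    module

/-- The representation of the braid group given by a chain. -/
def IsChain.rep (H : IsChain n c lam) : Braid n →* (U ≃ₗ[ℝ] U) :=
  PresentedGroup.toGroup (f := fun i : Fin n => tv (c i) (lam i) (H.self i i.2)) H.rels

theorem IsChain.rep_sg (H : IsChain n c lam) (i : Fin n) :
    H.rep (sg i) = tv (c i) (lam i) (H.self i i.2) :=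
  PresentedGroup.toGroup.of _

theorem IsChain.rep_sn (H : IsChain n c lam) {i : ℕ} (h : i < n) (x : U) :
    H.rep (sn n i) x = x + lam i x • c i := by
  rw [sn_eq h, H.rep_sg]; rfl

/-- The element `zz` acts by `-1` on the vectors of a chain of odd length whose odd curves bound. -/
theorem IsChain.zz_last {g : ℕ} {c : ℕ → U} {lam : ℕ → U →ₗ[ℝ] ℝ} (H : IsChain (2 * g + 1) c lam)
    (hb : ∑ i ∈ Finset.range (g + 1), c (2 * i) = 0) :
    H.rep (zz (2 * g + 1)) (c (2 * g)) = - c (2 * g) := by
  -- tails of the chain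
  have tail : ∀ i j : ℕ, i + 1 < j → j ≤ 2 * g + 1 →
      lam i (∑ l ∈ Finset.Ico j (2 * g + 1), c l) = 0 := by
    intro i j h _
    rw [map_sum]
    exact Finset.sum_eq_zero fun l hl => by
      rw [Finset.mem_Ico] at hl
      exact H.far i l (by omega) hl.2
  have split : ∀ j, j < 2 * g + 1 → ∑ l ∈ Finset.Ico j (2 * g + 1), c l =
      c j + ∑ l ∈ Finset.Ico (j + 1) (2 * g + 1), c l := fun j hj =>
    Finset.sum_eq_sum_Ico_succ_bot hj _
  have hT : ∀ j, j < 2 * g →
      H.rep (sn _ j) (∑ l ∈ Finset.Ico (j + 1) (2 * g + 1), c l) =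
        ∑ l ∈ Finset.Ico j (2 * g + 1), c l := by
    intro j hj
    rw [H.rep_sn (by omega), split (j + 1) (by omega), map_add, H.up j (by omega),
      tail j (j + 1 + 1) (by omega) (by omega), split j (by omega), split (j + 1) (by omega)]
    simp only [add_zero, one_smul]
    abel
  have hQ : ∀ m, m ≤ 2 * g → H.rep (Qp _ m) (∑ l ∈ Finset.Ico m (2 * g + 1), c l) =
      ∑ l ∈ Finset.Ico 0 (2 * g + 1), c l := by
    intro m
    induction m with
    | zero => intro _; simp [Qp]
    | succ m ih =>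
      intro hm
      rw [Qp, map_mul, LinearEquiv.mul_apply, hT m (by omega), ih (by omega)]
  have hQ' : H.rep (Qp _ (2 * g + 1)) (c (2 * g)) = ∑ l ∈ Finset.Ico 0 (2 * g + 1), c l := by
    rw [Qp, map_mul, LinearEquiv.mul_apply, H.rep_sn (by omega), H.self _ (by omega), zero_smul,
      add_zero, ← hQ (2 * g) le_rfl, Finset.sum_Ico_succ_top (by omega)]
    simp
  -- sums of the even curves
  have ev0 : ∀ m, m ≤ g → lam (2 * m) (∑ i ∈ Finset.range m, c (2 * i)) = 0 := by
    intro m hm
    rw [map_sum]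
    exact Finset.sum_eq_zero fun l hl => by
      rw [Finset.mem_range] at hl
      exact H.far' _ _ (by omega) (by omega)
  have ev1 : ∀ m, m < g → lam (2 * m + 1) (∑ i ∈ Finset.range m, c (2 * i)) = 0 := by
    intro m hm
    rw [map_sum]
    exact Finset.sum_eq_zero fun l hl => by
      rw [Finset.mem_range] at hl
      exact H.far' _ _ (by omega) (by omega)
  have hP : ∀ m, m ≤ g → H.rep (Pp _ (2 * m)) (∑ l ∈ Finset.Ico 0 (2 * g + 1), c l) =
      (2 : ℝ) • ∑ i ∈ Finset.range m, c (2 * i) + ∑ l ∈ Finset.Ico (2 * m) (2 * g + 1), c l := by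
    intro m
    induction m with
    | zero => intro _; simp [Pp]
    | succ m ih =>
      intro hm
      have e : 2 * (m + 1) = 2 * m + 1 + 1 := by ring
      rw [e, Pp, Pp, map_mul, map_mul, LinearEquiv.mul_apply, LinearEquiv.mul_apply, ih (by omega)]
      have s1 : H.rep (sn (2 * g + 1) (2 * m)) ((2 : ℝ) • ∑ i ∈ Finset.range m, c (2 * i) +
          ∑ l ∈ Finset.Ico (2 * m) (2 * g + 1), c l) =
          (2 : ℝ) • ∑ i ∈ Finset.range (m + 1), c (2 * i) +
            ∑ l ∈ Finset.Ico (2 * m + 1) (2 * g + 1), c l := by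
        rw [H.rep_sn (by omega), map_add, map_smul, ev0 m (by omega), split (2 * m) (by omega),
          split (2 * m + 1) (by omega), map_add, map_add, H.self _ (by omega),
          H.up (2 * m) (by omega), tail (2 * m) (2 * m + 1 + 1) (by omega) (by omega),
          Finset.sum_range_succ]
        module
      rw [s1, H.rep_sn (by omega), map_add, map_smul, Finset.sum_range_succ, map_add,
        ev1 m (by omega), H.down (2 * m) (by omega), split (2 * m + 1) (by omega), map_add,
        H.self _ (by omega), split (2 * m + 1 + 1) (by omega), map_add,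
        H.up (2 * m + 1) (by omega), tail (2 * m + 1) (2 * m + 1 + 1 + 1) (by omega) (by omega)]
      simp only [smul_eq_mul]
      module
  rw [zz, map_mul, LinearEquiv.mul_apply, hQ', Pp, map_mul, LinearEquiv.mul_apply, hP g le_rfl]
  rw [Finset.sum_range_succ] at hb
  have e1 : ∑ l ∈ Finset.Ico (2 * g) (2 * g + 1), c l = c (2 * g) := by
    rw [split (2 * g) (by omega)]; simp
  have e2 : ∑ i ∈ Finset.range g, c (2 * i) = - c (2 * g) := eq_neg_of_add_eq_zero_left hb
  rw [e1, e2, H.rep_sn (by omega), map_add, map_smul, map_neg, H.self _ (by omega)]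
  simp only [neg_zero, smul_zero, add_zero, zero_smul]
  module

theorem IsChain.zz_neg {g : ℕ} {c : ℕ → U} {lam : ℕ → U →ₗ[ℝ] ℝ} (H : IsChain (2 * g + 1) c lam)
    (hb : ∑ i ∈ Finset.range (g + 1), c (2 * i) = 0) :
    ∀ j, j ≤ 2 * g → H.rep (zz (2 * g + 1)) (c (2 * g - j)) = - c (2 * g - j) := by
  intro j
  induction j with
  | zero => intro _; exact H.zz_last hb
  | succ j ih =>
    intro hj
    have ih' := ih (by omega)
    obtain ⟨i, hi⟩ : ∃ i, 2 * g - j = i + 1 := ⟨2 * g - j - 1, by omega⟩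
    have hi' : 2 * g - (j + 1) = i := by omega
    rw [hi] at ih'
    rw [hi']
    have hc := congrArg (fun b => H.rep b (c (i + 1))) (zz_comm (n := 2 * g + 1) i (by omega))
    simp only [map_mul, LinearEquiv.mul_apply] at hc
    rw [ih', map_neg, H.rep_sn (by omega), H.up i (by omega), one_smul, map_add, ih'] at hc
    have : H.rep (zz (2 * g + 1)) (c i) = -c (i + 1) - c i - (-c (i + 1)) := by
      rw [eq_sub_iff_add_eq, add_comm, ← hc]; abel
    rw [this]; abel

end transvections

end Pool.Agent.J6H86.SB
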