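import Mathlib

/-!
# Symmetric powers as homogeneous polynomials, and polynomials fixed by transvections
(for MP_97e538_al)
-/

set_option autoImplicit false

namespace Pool.Agent.J6H86.SB

open MvPolynomial

variable {m : ℕ}

/-- The linear form `∑ v_i X_i` with coefficient vector `v`: the vector `v`, as a polynomial. -/
noncomputable def lin (v : Fin m → ℝ) : MvPolynomial (Fin m) ℝ := ∑ i, C (v i) * X i

/-- The map induced by a linear map on the symmetric algebra of `Fin m → ℝ`. -/
noncomputable def symAct (T : (Fin m → ℝ) →ₗ[ℝ] (Fin m → ℝ)) :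
    MvPolynomial (Fin m) ℝ →ₐ[ℝ] MvPolynomial (Fin m) ℝ :=
  aeval fun j => lin (T (Pi.single j 1))

theorem lin_add (v w : Fin m → ℝ) : lin (v + w) = lin v + lin w := by
  simp [lin, add_mul, Finset.sum_add_distrib]

theorem lin_smul (a : ℝ) (v : Fin m → ℝ) : lin (a • v) = C a * lin v := by
  simp [lin, Finset.mul_sum, mul_assoc]

theorem lin_neg (v : Fin m → ℝ) : lin (-v) = - lin v := by
  simp [lin]

theorem lin_single (j : Fin m) : lin (Pi.single j 1) = X j := by
  classical
  rw [lin, Finset.sum_eq_single j]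
  · simp
  · intro i _ hi
    simp [Pi.single_eq_of_ne hi]
  · simp

theorem eval_lin (v y : Fin m → ℝ) : eval y (lin v) = v ⬝ᵥ y := by
  simp [lin, dotProduct]

theorem lin_homog (v : Fin m → ℝ) : (lin v).IsHomogeneous 1 := by
  refine IsHomogeneous.sum _ _ _ fun i _ => ?_
  simpa using (isHomogeneous_C (Fin m) (v i)).mul (isHomogeneous_X ℝ i)

/-- `lin` as a linear map. -/
noncomputable def linL : (Fin m → ℝ) →ₗ[ℝ] MvPolynomial (Fin m) ℝ where
  toFun := lin
  map_add' := lin_add
  map_smul' a v := by rw [lin_smul, smul_eq_C_mul]; rfl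

theorem symAct_lin (T : (Fin m → ℝ) →ₗ[ℝ] (Fin m → ℝ)) (v : Fin m → ℝ) :
    symAct T (lin v) = lin (T v) := by
  have h : (symAct T).toLinearMap ∘ₗ linL = linL ∘ₗ T := by
    refine LinearMap.pi_ext' fun j => ?_
    ext
    simp only [LinearMap.comp_apply, AlgHom.toLinearMap_apply, LinearMap.single_apply]
    change coeff _ (symAct T (lin (Pi.single j 1))) = coeff _ (lin (T (Pi.single j 1)))
    rw [lin_single, symAct, aeval_X]
  exact congrArg (fun F => F v) h

theorem symAct_id : symAct (LinearMap.id : (Fin m → ℝ) →ₗ[ℝ] (Fin m → ℝ)) = AlgHom.id ℝ _ := by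
  ext j
  simp [symAct, lin_single]

theorem symAct_comp (S T : (Fin m → ℝ) →ₗ[ℝ] (Fin m → ℝ)) :
    symAct (S ∘ₗ T) = (symAct S).comp (symAct T) := by
  refine MvPolynomial.algHom_ext fun j => ?_
  rw [AlgHom.comp_apply, ← lin_single, symAct_lin, symAct_lin, symAct_lin]
  rfl

theorem symAct_homog (T : (Fin m → ℝ) →ₗ[ℝ] (Fin m → ℝ)) {k : ℕ} {p : MvPolynomial (Fin m) ℝ}
    (hp : p.IsHomogeneous k) : (symAct T p).IsHomogeneous k := by
  have := hp.aeval (fun j => lin (T (Pi.single j 1))) (fun j => lin_homog _)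
  rw [one_mul] at this
  exact this

theorem eval_symAct (T : (Fin m → ℝ) →ₗ[ℝ] (Fin m → ℝ)) (p : MvPolynomial (Fin m) ℝ)
    (y : Fin m → ℝ) : eval y (symAct T p) = eval (fun j => T (Pi.single j 1) ⬝ᵥ y) p := by
  have h : (MvPolynomial.aeval y : MvPolynomial (Fin m) ℝ →ₐ[ℝ] ℝ).comp (symAct T) =
      MvPolynomial.aeval (fun j => T (Pi.single j 1) ⬝ᵥ y) := by
    refine MvPolynomial.algHom_ext fun j => ?_
    rw [AlgHom.comp_apply, symAct, aeval_X, aeval_X]
    exact eval_lin _ _
  exact congrArg (fun F => F p) h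

/-- Homogeneous polynomials as homogeneous functions. -/
theorem eval_smul_homog {k : ℕ} {p : MvPolynomial (Fin m) ℝ} (hp : p.IsHomogeneous k) (s : ℝ)
    (y : Fin m → ℝ) : eval (s • y) p = s ^ k * eval y p := by
  rw [eval_eq, eval_eq, Finset.mul_sum]
  refine Finset.sum_congr rfl fun d hd => ?_
  have hd' := hp (mem_support_iff.1 hd)
  have : ∑ i, d i = k := by
    rw [← hd', Finsupp.weight_apply, Finsupp.sum_fintype] <;> simp
  simp only [Pi.smul_apply, smul_eq_mul, mul_pow, Finset.prod_mul_distrib,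
    Finset.prod_pow_eq_pow_sum]
  have h2 : ∑ i ∈ d.support, d i = k := by
    rw [← this]
    exact Finset.sum_subset (Finset.subset_univ _) fun i _ hi => by simpa using hi
  rw [h2]; ring

/-- The translations under which a polynomial is invariant. -/
def transInv (p : MvPolynomial (Fin m) ℝ) : Submodule ℝ (Fin m → ℝ) where
  carrier := {w | ∀ (t : ℝ) (y : Fin m → ℝ), eval (y + t • w) p = eval y p}
  add_mem' := by
    intro a b ha hb t y
    rw [smul_add, ← add_assoc, hb t, ha t]
  zero_mem' := by intro t y; simp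
  smul_mem' := by
    intro r a ha t y
    rw [smul_smul, ha]

theorem mem_transInv_of {p : MvPolynomial (Fin m) ℝ} {v w : Fin m → ℝ} (hv : v ≠ 0)
    (hvw : v ⬝ᵥ w = 0) (h : ∀ y, eval (y + (v ⬝ᵥ y) • w) p = eval y p) : w ∈ transInv p := by
  have step : ∀ (n : ℕ) y, eval (y + ((n : ℝ) * (v ⬝ᵥ y)) • w) p = eval y p := by
    intro n y
    induction n with
    | zero => simp
    | succ n ih =>
      have h1 := h (y + ((n : ℝ) * (v ⬝ᵥ y)) • w)
      rw [dotProduct_add, dotProduct_smul, hvw, smul_zero, add_zero, ih] at h1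
      have h2 : ((n + 1 : ℕ) : ℝ) * (v ⬝ᵥ y) = (n : ℝ) * (v ⬝ᵥ y) + v ⬝ᵥ y := by
        push_cast; ring
      rw [h2, add_smul, ← add_assoc, h1]
  have main : ∀ y, v ⬝ᵥ y ≠ 0 → ∀ t : ℝ, eval (y + t • w) p = eval y p := by
    intro y hy t
    let q : Polynomial ℝ := aeval (fun j => Polynomial.C (y j) + Polynomial.X * Polynomial.C (w j)) p
    have hq : ∀ s : ℝ, q.eval s = eval (y + s • w) p := by
      intro s
      have h2 : (Polynomial.aeval s : Polynomial ℝ →ₐ[ℝ] ℝ).comp (MvPolynomial.aeval
          (fun j => Polynomial.C (y j) + Polynomial.X * Polynomial.C (w j))) =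
          MvPolynomial.aeval (y + s • w) := by
        refine MvPolynomial.algHom_ext fun j => ?_
        rw [AlgHom.comp_apply, aeval_X, aeval_X]
        simp
        exact mul_comm _ _
      exact congrArg (fun F => F p) h2
    have hz : q - Polynomial.C (eval y p) = 0 := by
      refine Polynomial.eq_zero_of_infinite_isRoot _ ?_
      refine Set.infinite_of_injective_forall_mem (f := fun n : ℕ => (n : ℝ) * (v ⬝ᵥ y)) ?_ ?_
      · intro a b hab
        have := mul_right_cancel₀ hy hab
        exact_mod_cast this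
      · intro n
        simp only [Set.mem_ofPred_eq, Polynomial.IsRoot.def, Polynomial.eval_sub,
          Polynomial.eval_C, hq, step, sub_self]
    have := congrArg (Polynomial.eval t) hz
    simp only [Polynomial.eval_sub, Polynomial.eval_C, Polynomial.eval_zero, hq] at this
    linarith
  intro t y
  by_cases hy : v ⬝ᵥ y = 0
  · have hvv : v ⬝ᵥ v ≠ 0 := fun h0 => hv (dotProduct_self_eq_zero.1 h0)
    have hc1 : Continuous fun s : ℝ => eval (y + s • v + t • w) p :=
      (MvPolynomial.continuous_eval p).comp (by fun_prop)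
    have hc2 : Continuous fun s : ℝ => eval (y + s • v) p :=
      (MvPolynomial.continuous_eval p).comp (by fun_prop)
    have heq : Set.EqOn (fun s : ℝ => eval (y + s • v + t • w) p)
        (fun s : ℝ => eval (y + s • v) p) {0}ᶜ := by
      intro s hs
      refine main _ ?_ t
      rw [dotProduct_add, dotProduct_smul, hy, zero_add, smul_eq_mul]
      exact mul_ne_zero hs hvv
    have := congrFun (hc1.ext_on (dense_compl_singleton (0 : ℝ)) hc2 heq) 0
    simpa using this
  · exact main y hy t

end Pool.Agent.J6H86.SB
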