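import Pool.Agent.J6H86.SB.Grp
import Pool.Agent.J6H86.SB.Sym

/-!
# The homology of the closed surface of genus `g` with a chain of `2g+1` curves
(for MP_97e538_al)
-/

set_option autoImplicit false

namespace Pool.Agent.J6H86.SB

open MvPolynomial

/-- The real first homology `H_1(Σ_g; ℝ)`, with the first `2g` curves `c_0, …, c_{2g-1}` of a chain
as basis. -/
abbrev VV (g : ℕ) : Type := Fin (2 * g) → ℝ

/-- The coordinates of a vector, extended by zero. -/
def co {g : ℕ} (x : VV g) (n : ℕ) : ℝ := if h : n < 2 * g then x ⟨n, h⟩ else 0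

/-- The intersection form: `c_i · c_{i+1} = 1`, and `c_i · c_j = 0` for `|i - j| ≥ 2`. -/
def omega {g : ℕ} (x y : VV g) : ℝ :=
  ∑ i ∈ Finset.range (2 * g), (co x i * co y (i + 1) - co x (i + 1) * co y i)

/-- The classes of the `2g+1` curves of the chain: the basis vectors for `i < 2g`, and
`c_{2g} = - (c_0 + c_2 + ⋯ + c_{2g-2})`. -/
def curve (g i : ℕ) : VV g := fun m =>
  if i < 2 * g then (if (m : ℕ) = i then 1 else 0) else (if Even (m : ℕ) then -1 else 0)

theorem co_add {g : ℕ} (x y : VV g) (n : ℕ) : co (x + y) n = co x n + co y n := by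
  unfold co; split_ifs <;> simp

theorem co_smul {g : ℕ} (a : ℝ) (x : VV g) (n : ℕ) : co (a • x) n = a * co x n := by
  unfold co; split_ifs <;> simp

/-- `omega` as a linear map in the second variable. -/
def omegaL {g : ℕ} (x : VV g) : VV g →ₗ[ℝ] ℝ where
  toFun := omega x
  map_add' y z := by
    simp only [omega, co_add, ← Finset.sum_add_distrib]
    exact Finset.sum_congr rfl fun i _ => by ring
  map_smul' a y := by
    simp only [omega, co_smul, RingHom.id_apply, smul_eq_mul, Finset.mul_sum]
    exact Finset.sum_congr rfl fun i _ => by ring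

theorem omegaL_apply {g : ℕ} (x y : VV g) : omegaL x y = omega x y := rfl

theorem omega_self {g : ℕ} (x : VV g) : omega x x = 0 := by
  unfold omega
  exact Finset.sum_eq_zero fun i _ => by ring

theorem omega_anti {g : ℕ} (x y : VV g) : omega x y = - omega y x := by
  unfold omega
  rw [← Finset.sum_neg_distrib]
  exact Finset.sum_congr rfl fun i _ => by ring

theorem co_curve {g i : ℕ} (hi : i < 2 * g) (n : ℕ) : co (curve g i) n = if n = i then 1 else 0 := by
  unfold co curve
  by_cases h : n < 2 * g
  · simp [h, hi]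
  · have : n ≠ i := by omega
    simp [h, this]

theorem co_curve_last {g i : ℕ} (hi : 2 * g ≤ i) (n : ℕ) :
    co (curve g i) n = if n < 2 * g ∧ Even n then -1 else 0 := by
  unfold co curve
  have h2 : ¬ i < 2 * g := by omega
  by_cases h : n < 2 * g
  · simp [h, h2]
  · simp [h]

theorem omega_curve {g i : ℕ} (hi : i < 2 * g) (y : VV g) :
    omega (curve g i) y = co y (i + 1) - (if i = 0 then 0 else co y (i - 1)) := by
  unfold omega
  rw [Finset.sum_sub_distrib]
  simp only [co_curve hi]
  congr 1
  · rw [Finset.sum_eq_single i]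
    · simp
    · intro b _ hb; simp [hb]
    · intro h; exact absurd (Finset.mem_range.2 hi) h
  · by_cases h0 : i = 0
    · rw [if_pos h0]
      exact Finset.sum_eq_zero fun b _ => by
        rw [if_neg (by omega)]; simp
    · rw [if_neg h0, Finset.sum_eq_single (i - 1)]
      · rw [if_pos (by omega), one_mul]
      · intro b _ hb; rw [if_neg (by omega)]; simp
      · intro h; exact absurd (Finset.mem_range.2 (by omega)) h

theorem omega_up {g i : ℕ} (h : i + 1 < 2 * g + 1) : omega (curve g i) (curve g (i + 1)) = 1 := by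
  rw [omega_curve (by omega)]
  rcases Nat.lt_or_ge (i + 1) (2 * g) with h1 | h1
  · rw [co_curve h1, co_curve h1, if_pos rfl, if_neg (by omega : ¬ i - 1 = i + 1)]
    simp
  · rw [co_curve_last h1, co_curve_last h1, if_neg (fun h => absurd h.1 (by omega)),
      if_neg (by omega), if_pos]
    · norm_num
    · refine ⟨by omega, ?_⟩
      rw [Nat.even_iff]; omega

theorem omega_far {g i j : ℕ} (h : i + 1 < j) (hj : j < 2 * g + 1) :
    omega (curve g i) (curve g j) = 0 := by
  rw [omega_curve (by omega)]
  rcases Nat.lt_or_ge j (2 * g) with h1 | h1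
  · rw [co_curve h1, co_curve h1, if_neg (by omega), if_neg (by omega : ¬ i - 1 = j)]
    simp
  · rw [co_curve_last h1, co_curve_last h1]
    by_cases h0 : i = 0
    · subst h0
      simp
    · rw [if_neg h0]
      by_cases he : Even (i + 1)
      · have he2 : Even (i - 1) := by rw [Nat.even_iff] at he ⊢; omega
        rw [if_pos ⟨by omega, he⟩, if_pos ⟨by omega, he2⟩]; simp
      · have he2 : ¬ Even (i - 1) := by rw [Nat.even_iff] at he ⊢; omega
        simp [he, he2]

theorem isChain (g : ℕ) : IsChain (2 * g + 1) (curve g) (fun i => omegaL (curve g i)) where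
  self i _ := omega_self _
  up i h := omega_up h
  down i h := by
    change omega _ _ = _
    rw [omega_anti, omega_up h]
  far i j h hj := omega_far h hj
  far' i j h hj := by
    change omega _ _ = _
    rw [omega_anti, omega_far h hj, neg_zero]

/-- The action `α` of the braid group `B_{2g+2}` on `H_1(Σ_g; ℝ)`: the standard generator `σ_i` acts
by the transvection `x ↦ x + (c_i · x) c_i` along the `i`-th curve of the chain. -/
def alpha (g : ℕ) : Braid (2 * g + 1) →* (VV g ≃ₗ[ℝ] VV g) := (isChain g).rep

theorem alpha_sn (g : ℕ) {i : ℕ} (h : i < 2 * g + 1) (x : VV g) :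
    alpha g (sn _ i) x = x + omega (curve g i) x • curve g i :=
  (isChain g).rep_sn h x

theorem curve_single {g i : ℕ} (h : i < 2 * g) : curve g i = Pi.single ⟨i, h⟩ 1 := by
  funext m
  unfold curve
  rw [if_pos h, Pi.single_apply]
  simp [Fin.ext_iff]

theorem curve_last_apply (g : ℕ) (m : Fin (2 * g)) :
    curve g (2 * g) m = if Even (m : ℕ) then -1 else 0 := by
  unfold curve; simp

theorem curve_bound (g : ℕ) : ∑ i ∈ Finset.range (g + 1), curve g (2 * i) = 0 := by
  funext m
  rw [Finset.sum_range_succ, Pi.add_apply, curve_last_apply, Finset.sum_apply, Pi.zero_apply]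
  have : ∀ i ∈ Finset.range g, curve g (2 * i) m = if (m : ℕ) = 2 * i then 1 else 0 := by
    intro i hi
    rw [Finset.mem_range] at hi
    unfold curve
    rw [if_pos (by omega)]
  rw [Finset.sum_congr rfl this]
  have hm := m.2
  by_cases he : Even (m : ℕ)
  · rw [if_pos he, Finset.sum_eq_single ((m : ℕ) / 2)]
    · rw [Nat.even_iff] at he
      rw [if_pos (by omega)]; norm_num
    · intro b _ hb
      rw [if_neg (by omega)]
    · intro h
      exact absurd (Finset.mem_range.2 (by omega)) h
  · rw [if_neg he, Finset.sum_eq_zero]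
    · norm_num
    · intro b _
      rw [if_neg]
      intro h
      exact he ⟨b, by omega⟩

theorem alpha_zz (g : ℕ) (x : VV g) : alpha g (zz _) x = - x := by
  have h : ((alpha g (zz _) : VV g ≃ₗ[ℝ] VV g) : VV g →ₗ[ℝ] VV g) = -LinearMap.id := by
    refine LinearMap.pi_ext' fun j => ?_
    refine LinearMap.ext_ring ?_
    simp only [LinearMap.comp_apply, LinearMap.single_apply, LinearMap.neg_apply, LinearMap.id_apply]
    have h1 := (isChain g).zz_neg (curve_bound g) (2 * g - j) (by omega)
    have h2 : 2 * g - (2 * g - (j : ℕ)) = j := by have := j.2; omega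
    rw [h2, curve_single j.2] at h1
    exact h1
  exact congrArg (fun F => F x) h

/-- The `k`-th symmetric power of `H_1(Σ_g; ℝ)`: homogeneous polynomials of degree `k` in the
basis. -/
abbrev SymV (g k : ℕ) : Type := homogeneousSubmodule (Fin (2 * g)) ℝ k

/-- The action of the braid group on the `k`-th symmetric power. -/
noncomputable def symRep (g k : ℕ) : Representation ℝ (Braid (2 * g + 1)) (SymV g k) where
  toFun b := (symAct (alpha g b : VV g →ₗ[ℝ] VV g)).toLinearMap.restrict
    (p := homogeneousSubmodule (Fin (2 * g)) ℝ k) (q := homogeneousSubmodule (Fin (2 * g)) ℝ k)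
    (fun _ hp => symAct_homog _ hp)
  map_one' := by
    refine LinearMap.ext fun p => Subtype.ext ?_
    rw [map_one]
    change symAct (LinearMap.id) (p : MvPolynomial (Fin (2 * g)) ℝ) = p
    rw [symAct_id]; rfl
  map_mul' a b := by
    refine LinearMap.ext fun p => Subtype.ext ?_
    rw [map_mul]
    change symAct ((alpha g a : VV g →ₗ[ℝ] VV g) ∘ₗ (alpha g b : VV g →ₗ[ℝ] VV g))
      (p : MvPolynomial (Fin (2 * g)) ℝ) = symAct _ (symAct _ (p : MvPolynomial (Fin (2 * g)) ℝ))
    rw [symAct_comp]; rfl

theorem symRep_coe (g k : ℕ) (b : Braid (2 * g + 1)) (p : SymV g k) :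
    ((symRep g k b p : SymV g k) : MvPolynomial (Fin (2 * g)) ℝ) =
      symAct (alpha g b : VV g →ₗ[ℝ] VV g) p := rfl

theorem symRep_zz {g k : ℕ} (hk : Odd k) (p : SymV g k) : symRep g k (zz _) p = - p := by
  refine Subtype.ext ?_
  rw [symRep_coe]
  refine MvPolynomial.funext fun y => ?_
  rw [eval_symAct]
  have h1 : (fun j => (alpha g (zz _) : VV g →ₗ[ℝ] VV g) (Pi.single j 1) ⬝ᵥ y) = (-1 : ℝ) • y := by
    funext j
    change alpha g (zz _) (Pi.single j 1) ⬝ᵥ y = _
    rw [alpha_zz, neg_dotProduct, single_dotProduct]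
    simp
  rw [h1, eval_smul_homog p.2, hk.neg_one_pow]
  simp

theorem omegaL_sum {g : ℕ} (x v : VV g) : omegaL x v = ∑ j, v j * omega x (Pi.single j 1) := by
  rw [LinearMap.pi_apply_eq_sum_univ (omegaL x) v]
  refine Finset.sum_congr rfl fun j _ => ?_
  rw [smul_eq_mul, omegaL_apply]
  congr 2
  funext l
  simp [Pi.single_apply, eq_comm]

/-- A polynomial fixed by the `i`-th transvection is invariant under a translation. -/
theorem mem_transInv_of_fix {g : ℕ} {p : MvPolynomial (Fin (2 * g)) ℝ} {i : ℕ} (hi : i < 2 * g)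
    (h : symAct (alpha g (sn _ i) : VV g →ₗ[ℝ] VV g) p = p) :
    (fun j => omega (curve g i) (Pi.single j 1)) ∈ transInv p := by
  refine mem_transInv_of (v := curve g i) ?_ ?_ ?_
  · rw [curve_single hi]
    intro h0
    have := congrFun h0 ⟨i, hi⟩
    simp at this
  · rw [dotProduct, ← omegaL_sum, omegaL_apply, omega_self]
  · intro y
    conv_rhs => rw [← h, eval_symAct]
    congr 2
    funext j
    change _ = alpha g (sn _ i) (Pi.single j 1) ⬝ᵥ y
    rw [alpha_sn g (by omega), add_dotProduct, smul_dotProduct, single_dotProduct]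
    simp [mul_comm]

end Pool.Agent.J6H86.SB
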