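import Pool.Agent.J6H86.SB.StepD

/-!
# The first generator (for MP_97e538_al)
-/

set_option autoImplicit false
set_option linter.unusedSimpArgs false

namespace Pool.Agent.J6H86.SB

open MvPolynomial

/-- The vector of the functional `c_i · _`. -/
def Wv (g i : ℕ) : VV g := fun j => omega (curve g i) (Pi.single j 1)

/-- The coordinate vectors, zero if the index is too large. -/
def Ev (g j : ℕ) : VV g := fun m => if (m : ℕ) = j then 1 else 0

theorem Wv_eq {g i : ℕ} (hi : i ≤ 2 * g) (h1 : 1 ≤ i) : Wv g i = Ev g (i + 1) - Ev g (i - 1) := by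
  funext m
  rw [Pi.sub_apply]
  rcases Nat.lt_or_ge i (2 * g) with h | h
  · simp only [Wv, ww_apply h, Ev]
    congr 1
    by_cases h2 : (m : ℕ) + 1 = i
    · rw [if_pos h2, if_pos (by omega)]
    · rw [if_neg h2, if_neg (by omega)]
  · obtain rfl : i = 2 * g := by omega
    simp only [Wv, Ev]
    have hm := m.2
    rw [if_neg (by omega), omega_anti, ← curve_single hm]
    by_cases h2 : (m : ℕ) = 2 * g - 1
    · have := omega_up (g := g) (i := m) (by omega)
      rw [show (m : ℕ) + 1 = 2 * g by omega] at this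
      rw [if_pos h2, this]; norm_num
    · rw [if_neg h2, omega_far (by omega) (by omega)]; norm_num

theorem Wv_zero {g : ℕ} (hg : 1 ≤ g) : Wv g 0 = Ev g 1 := by
  funext m
  simp only [Wv, ww_apply (show 0 < 2 * g by omega), Ev]
  simp

/-- Evaluation after a transvection. -/
theorem eval_T {g i : ℕ} (hi : i < 2 * g + 1) (p : MvPolynomial (Fin (2 * g)) ℝ) (y : VV g) :
    eval y (symAct (alpha g (sn _ i) : VV g →ₗ[ℝ] VV g) p) =
      eval (y + (curve g i ⬝ᵥ y) • Wv g i) p := by
  rw [eval_symAct]
  congr 2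
  funext j
  change alpha g (sn _ i) (Pi.single j 1) ⬝ᵥ y = _
  rw [alpha_sn g hi, add_dotProduct, smul_dotProduct, single_dotProduct]
  simp [Wv, mul_comm]

/-- Downward generation of translations. -/
theorem down {g a : ℕ} {p : MvPolynomial (Fin (2 * g)) ℝ}
    (h : ∀ i, a < i → i ≤ 2 * g → Wv g i ∈ transInv p) :
    ∀ n j, 2 * g ≤ j + n → a ≤ j → Ev g j ∈ transInv p := by
  have hz : ∀ j, 2 * g ≤ j → Ev g j = 0 := by
    intro j hj
    funext m
    have := m.2
    simp only [Ev, Pi.zero_apply]
    rw [if_neg (by omega)]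
  intro n
  induction n with
  | zero =>
    intro j hj _
    rw [hz j (by omega)]
    exact Submodule.zero_mem _
  | succ n ih =>
    intro j hj ha
    rcases Nat.lt_or_ge j (2 * g) with h1 | h1
    · have h2 := ih (j + 2) (by omega) (by omega)
      have h3 := h (j + 1) (by omega) (by omega)
      rw [Wv_eq (by omega) (by omega)] at h3
      have : Ev g j = Ev g (j + 2) - (Ev g (j + 1 + 1) - Ev g (j + 1 - 1)) := by
        rw [show j + 1 - 1 = j by omega]; abel
      rw [this]
      exact Submodule.sub_mem _ h2 h3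
    · rw [hz j h1]; exact Submodule.zero_mem _

theorem vec_sum {g : ℕ} (y : VV g) : y = ∑ j : Fin (2 * g), y j • Ev g j := by
  funext m
  rw [Finset.sum_apply]
  simp only [Pi.smul_apply, Ev, smul_eq_mul, mul_ite, mul_one, mul_zero]
  rw [Finset.sum_eq_single m]
  · simp
  · intro b _ hb
    rw [if_neg]
    intro h
    exact hb (Fin.ext h.symm)
  · simp

/-- Monomials divisible by the first curve are in the image. -/
theorem mono_mem {g k : ℕ} (hg : 1 ≤ g) : ∀ (j a e : ℕ) (r : MvPolynomial (Fin (2 * g)) ℝ),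
    r.IsHomogeneous e → symAct (alpha g (sn _ 0) : VV g →ₗ[ℝ] VV g) r = r → a + 1 + j + e = k →
    X ⟨0, by omega⟩ ^ (a + 1) * X ⟨1, by omega⟩ ^ j * r ∈
      (homogeneousSubmodule (Fin (2 * g)) ℝ k).map
        ((symAct (alpha g (sn _ 0) : VV g →ₗ[ℝ] VV g)).toLinearMap - LinearMap.id) := by
  intro j
  induction j using Nat.strong_induction_on with
  | _ j ih =>
    intro a e r hr hfr hk
    set T := symAct (alpha g (sn _ 0) : VV g →ₗ[ℝ] VV g) with hT
    set X0 : MvPolynomial (Fin (2 * g)) ℝ := X ⟨0, by omega⟩ with hX0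
    set X1 : MvPolynomial (Fin (2 * g)) ℝ := X ⟨1, by omega⟩ with hX1
    have t0 : T X0 = X0 := by
      rw [hX0, ← lin_single, hT, symAct_lin]
      congr 1
      change alpha g (sn _ 0) _ = _
      rw [alpha_sn g (by omega), ww_apply (by omega)]
      simp
    have t1 : T X1 = X1 + X0 := by
      rw [hX0, hX1, ← lin_single, ← lin_single, hT, symAct_lin, ← lin_add]
      congr 1
      change alpha g (sn _ 0) _ = _
      rw [alpha_sn g (by omega), ww_apply (by omega), curve_single (by omega)]
      simp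
    have hu : X0 ^ a * X1 ^ (j + 1) * r ∈ homogeneousSubmodule (Fin (2 * g)) ℝ k := by
      rw [mem_homogeneousSubmodule]
      have := (((isHomogeneous_X ℝ (⟨0, by omega⟩ : Fin (2 * g))).pow a).mul
        ((isHomogeneous_X ℝ (⟨1, by omega⟩ : Fin (2 * g))).pow (j + 1))).mul hr
      rw [show 1 * a + 1 * (j + 1) + e = k by omega] at this
      exact this
    have h1 := Submodule.mem_map_of_mem (f := T.toLinearMap - LinearMap.id) hu
    have h2 : (T.toLinearMap - LinearMap.id : MvPolynomial (Fin (2 * g)) ℝ →ₗ[ℝ]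
        MvPolynomial (Fin (2 * g)) ℝ) (X0 ^ a * X1 ^ (j + 1) * r) =
        ∑ i ∈ Finset.range j, ((j + 1).choose i : ℝ) • (X0 ^ (a + (j - i) + 1) * X1 ^ i * r) +
          ((j + 1 : ℕ) : ℝ) • (X0 ^ (a + 1) * X1 ^ j * r) := by
      rw [LinearMap.sub_apply, AlgHom.toLinearMap_apply, LinearMap.id_apply, map_mul, map_mul,
        map_pow, map_pow, t0, t1, hfr, add_pow, Finset.sum_range_succ, Finset.sum_range_succ]
      have h3 : ∀ i ∈ Finset.range j, ((j + 1).choose i : ℝ) • (X0 ^ (a + (j - i) + 1) * X1 ^ i * r) =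
          X0 ^ a * (X1 ^ i * X0 ^ (j + 1 - i) * ((j + 1).choose i : MvPolynomial (Fin (2 * g)) ℝ)) *
            r := by
        intro i hi
        rw [Finset.mem_range] at hi
        rw [show a + (j - i) + 1 = a + (j + 1 - i) by omega, pow_add, smul_eq_C_mul]
        rw [show (C (((j + 1).choose i : ℕ) : ℝ) : MvPolynomial (Fin (2 * g)) ℝ) =
          (((j + 1).choose i : ℕ) : MvPolynomial (Fin (2 * g)) ℝ) from map_natCast C _]
        ring
      rw [Finset.sum_congr rfl h3, ← Finset.sum_mul, ← Finset.mul_sum, smul_eq_C_mul,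
        show (C (((j + 1 : ℕ)) : ℝ) : MvPolynomial (Fin (2 * g)) ℝ) =
          (((j + 1 : ℕ)) : MvPolynomial (Fin (2 * g)) ℝ) from map_natCast C _]
      rw [show j + 1 - j = 1 by omega, show j + 1 - (j + 1) = 0 by omega,
        Nat.choose_succ_self_right, Nat.choose_self]
      push_cast
      ring
    rw [h2] at h1
    have h4 : ∑ i ∈ Finset.range j, ((j + 1).choose i : ℝ) • (X0 ^ (a + (j - i) + 1) * X1 ^ i * r) ∈
        (homogeneousSubmodule (Fin (2 * g)) ℝ k).map (T.toLinearMap - LinearMap.id) := by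
      refine Submodule.sum_mem _ fun i hi => Submodule.smul_mem _ _ ?_
      rw [Finset.mem_range] at hi
      exact ih i hi (a + (j - i)) e r hr hfr (by omega)
    have h5 := (Submodule.add_mem_iff_right _ h4).1 h1
    have hj : ((j + 1 : ℕ) : ℝ) ≠ 0 := by positivity
    exact (Submodule.smul_mem_iff _ hj).1 h5

/-- A homogeneous polynomial that vanishes where the first curve vanishes is in the image. -/
theorem im_first {g k : ℕ} (hg : 1 ≤ g) {p : MvPolynomial (Fin (2 * g)) ℝ} (hp : p.IsHomogeneous k)
    (h : ∀ y : VV g, y ⟨0, by omega⟩ = 0 → eval y p = 0) :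
    p ∈ (homogeneousSubmodule (Fin (2 * g)) ℝ k).map
        ((symAct (alpha g (sn _ 0) : VV g →ₗ[ℝ] VV g)).toLinearMap - LinearMap.id) := by
  classical
  set z : Fin (2 * g) := ⟨0, by omega⟩ with hz
  set z1 : Fin (2 * g) := ⟨1, by omega⟩ with hz1
  -- `X z` divides `p`
  let π : MvPolynomial (Fin (2 * g)) ℝ →ₐ[ℝ] MvPolynomial (Fin (2 * g)) ℝ :=
    aeval fun i => if i = z then 0 else X i
  have hdvd : ∀ q : MvPolynomial (Fin (2 * g)) ℝ, X z ∣ q - π q := by
    intro q
    induction q using MvPolynomial.induction_on with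
    | C a =>
      have : π (C a) = C a := π.commutes a
      rw [this, sub_self]; exact dvd_zero _
    | add p q hp hq =>
      rw [map_add, add_sub_add_comm]; exact dvd_add hp hq
    | mul_X p i hp =>
      rw [map_mul]
      have h1 : π (X i) = if i = z then 0 else X i := aeval_X _ _
      by_cases hi : i = z
      · rw [h1, if_pos hi, hi, mul_zero, sub_zero]; exact dvd_mul_left _ _
      · rw [h1, if_neg hi, ← sub_mul]; exact dvd_mul_of_dvd_left hp _
  have hπ : π p = 0 := by
    refine MvPolynomial.funext fun y => ?_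
    have h1 : (MvPolynomial.aeval y : MvPolynomial (Fin (2 * g)) ℝ →ₐ[ℝ] ℝ).comp π =
        MvPolynomial.aeval (fun i => if i = z then 0 else y i) := by
      refine MvPolynomial.algHom_ext fun i => ?_
      rw [AlgHom.comp_apply, aeval_X, aeval_X]
      by_cases hi : i = z <;> simp [hi]
    have h2 : eval y (π p) = eval (fun i => if i = z then 0 else y i) p :=
      congrArg (fun F => F p) h1
    rw [h2, map_zero]
    exact h _ (by simp [hz])
  obtain ⟨q, hq⟩ := hdvd p
  rw [hπ, sub_zero] at hq
  have hsupp : ∀ d ∈ p.support, d z ≠ 0 := by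
    intro d hd hd0
    rw [mem_support_iff, hq, coeff_X_mul', if_neg] at hd
    · exact hd rfl
    · simpa using hd0
  rw [p.as_sum]
  refine Submodule.sum_mem _ fun d hd => ?_
  have hd0 := hsupp d hd
  have hdk : ∑ i, d i = k := by
    have hd' := hp (mem_support_iff.1 hd)
    rw [← hd', Finsupp.weight_apply, Finsupp.sum_fintype] <;> simp
  have hne : z1 ≠ z := by simp [hz, hz1]
  have h1m : z1 ∈ Finset.univ.erase z := Finset.mem_erase.2 ⟨hne, Finset.mem_univ _⟩
  let r : MvPolynomial (Fin (2 * g)) ℝ := ∏ i ∈ (Finset.univ.erase z).erase z1, X i ^ d i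
  have hr : r.IsHomogeneous (∑ i ∈ (Finset.univ.erase z).erase z1, d i) := by
    refine IsHomogeneous.prod _ _ _ fun i _ => ?_
    simpa using (isHomogeneous_X ℝ i).pow (d i)
  have hfr : symAct (alpha g (sn _ 0) : VV g →ₗ[ℝ] VV g) r = r := by
    rw [map_prod]
    refine Finset.prod_congr rfl fun i hi => ?_
    rw [Finset.mem_erase, Finset.mem_erase] at hi
    rw [map_pow]
    congr 1
    rw [← lin_single, symAct_lin]
    congr 1
    change alpha g (sn _ 0) _ = _
    have : (i : ℕ) ≠ 1 := fun h0 => hi.1 (Fin.ext h0)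
    rw [alpha_sn g (by omega), ww_apply (by omega)]
    simp [this]
  have hmon : monomial d (coeff d p) = coeff d p •
      (X z ^ (d z - 1 + 1) * X z1 ^ d z1 * r) := by
    rw [monomial_eq, Finsupp.prod_fintype _ _ (fun i => by simp), smul_eq_C_mul,
      ← Finset.mul_prod_erase Finset.univ _ (Finset.mem_univ z),
      ← Finset.mul_prod_erase (Finset.univ.erase z) _ h1m, Nat.sub_add_cancel (by omega)]
    simp only [r, mul_assoc]
  rw [hmon]
  refine Submodule.smul_mem _ _ (mono_mem hg (d z1) (d z - 1) _ r hr hfr ?_)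
  rw [← hdk, ← Finset.add_sum_erase Finset.univ _ (Finset.mem_univ z),
    ← Finset.add_sum_erase (Finset.univ.erase z) _ h1m]
  omega

/-- **Step 0.** The value of a cocycle at the first generator is in the image of `σ_0 - 1`. -/
theorem step0 {g k : ℕ} (hg : 2 ≤ g) (hk : 1 ≤ k) {p : MvPolynomial (Fin (2 * g)) ℝ}
    (hp : p.IsHomogeneous k) (F : ℕ → MvPolynomial (Fin (2 * g)) ℝ)
    (h : ∀ j, 2 ≤ j → j ≤ 2 * g → symAct (alpha g (sn _ j) : VV g →ₗ[ℝ] VV g) p - p =
      symAct (alpha g (sn _ 0) : VV g →ₗ[ℝ] VV g) (F j) - F j) :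
    p ∈ (homogeneousSubmodule (Fin (2 * g)) ℝ k).map
        ((symAct (alpha g (sn _ 0) : VV g →ₗ[ℝ] VV g)).toLinearMap - LinearMap.id) := by
  refine im_first (by omega) hp ?_
  set z : Fin (2 * g) := ⟨0, by omega⟩ with hz
  -- restriction to the hyperplane
  let N : VV g →ₗ[ℝ] VV g := LinearMap.id - (LinearMap.proj z).smulRight (Pi.single z 1)
  let q := symAct N p
  have hqh : q.IsHomogeneous k := symAct_homog _ hp
  have hq : ∀ y : VV g, eval y q = eval (y - y z • Ev g 0) p := by
    intro y
    rw [eval_symAct]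
    congr 2
    funext j
    simp only [N, LinearMap.sub_apply, LinearMap.id_apply, LinearMap.smulRight_apply,
      LinearMap.proj_apply, sub_dotProduct, smul_dotProduct, single_dotProduct, Pi.sub_apply,
      Pi.smul_apply, Ev, one_mul, smul_eq_mul]
    by_cases hj : j = z
    · subst hj; simp [hz]
    · have : (j : ℕ) ≠ 0 := fun h0 => hj (Fin.ext h0)
      simp [this, Pi.single_eq_of_ne' hj]
  have h0 : Ev g 0 ∈ transInv q := by
    intro t y
    rw [hq, hq]
    congr 2
    have : Ev g 0 z = 1 := by simp [Ev, hz]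
    rw [Pi.add_apply, Pi.smul_apply, this, smul_eq_mul, mul_one]
    module
  have hW : ∀ i, 1 < i → i ≤ 2 * g → Wv g i ∈ transInv q := by
    intro i h1 h2
    have hWz : Wv g i z = 0 := by
      rw [Wv_eq h2 (by omega), Pi.sub_apply]
      simp only [Ev, hz]
      rw [if_neg (by omega), if_neg (by omega)]; norm_num
    have hdot : ∀ y : VV g, (curve g i - curve g i z • Pi.single z 1) ⬝ᵥ y =
        curve g i ⬝ᵥ (y - y z • Ev g 0) := by
      intro y
      have e0 : Ev g 0 = Pi.single z 1 := by
        funext l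
        simp [Ev, Pi.single_apply, hz, Fin.ext_iff]
      rw [e0, sub_dotProduct, smul_dotProduct, single_dotProduct, dotProduct_sub,
        dotProduct_smul, dotProduct_single]
      simp [mul_comm]
    refine mem_transInv_of (v := curve g i - curve g i z • Pi.single z 1) ?_ ?_ ?_
    · intro hv
      -- a nonzero coordinate
      rcases Nat.lt_or_ge i (2 * g) with h3 | h3
      · have := congrFun hv ⟨i, h3⟩
        have hne : (⟨i, h3⟩ : Fin (2 * g)) ≠ z := by
          rw [hz]; intro h4; have := congrArg Fin.val h4; simp at this; omega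
        rw [Pi.sub_apply, Pi.smul_apply, Pi.single_eq_of_ne hne] at this
        simp [curve, h3] at this
      · obtain rfl : i = 2 * g := by omega
        have := congrFun hv ⟨2, by omega⟩
        have hne : (⟨2, by omega⟩ : Fin (2 * g)) ≠ z := by
          rw [hz]; intro h4; have := congrArg Fin.val h4; simp at this
        rw [Pi.sub_apply, Pi.smul_apply, Pi.single_eq_of_ne hne, curve_last_apply] at this
        norm_num at this
    · rw [hdot, hWz, zero_smul, sub_zero, dotProduct]
      have := omegaL_sum (curve g i) (curve g i)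
      rw [omegaL_apply, omega_self] at this
      exact this.symm
    · intro y
      rw [hdot, hq, hq]
      set y' : VV g := y - y z • Ev g 0 with hy'
      have e1 : y + (curve g i ⬝ᵥ y') • Wv g i - (y + (curve g i ⬝ᵥ y') • Wv g i) z • Ev g 0 =
          y' + (curve g i ⬝ᵥ y') • Wv g i := by
        rw [Pi.add_apply, Pi.smul_apply, hWz, smul_zero, add_zero, hy']
        abel
      rw [e1, ← eval_T (by omega)]
      have h3 := congrArg (eval y') (h i (by omega) h2)
      rw [map_sub, map_sub, eval_T (i := 0) (by omega)] at h3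
      have h4 : curve g 0 ⬝ᵥ y' = 0 := by
        rw [curve_single (by omega), single_dotProduct, hy']
        simp [Ev, hz]
      rw [h4, zero_smul, add_zero, sub_self, sub_eq_zero] at h3
      exact h3
  have hall : ∀ y : VV g, y ∈ transInv q := by
    intro y
    rw [vec_sum y]
    refine Submodule.sum_mem _ fun j _ => Submodule.smul_mem _ _ ?_
    rcases Nat.eq_zero_or_pos (j : ℕ) with h1 | h1
    · rw [h1]; exact h0
    · exact down hW (2 * g) j (by omega) h1
  intro y hy
  have h1 := hq y
  rw [hy, zero_smul, sub_zero] at h1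
  have h2 := hall y 1 0
  rw [zero_add, one_smul] at h2
  have h3 := eval_smul_homog hqh 0 (0 : VV g)
  rw [zero_smul, zero_pow (by omega), zero_mul] at h3
  rw [← h1, h2, h3]

end Pool.Agent.J6H86.SB
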