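import Pool.Agent.J6H86.SB.StepA
import Pool.Agent.J6H86.SB.FunEq

/-!
# The second generator (for MP_97e538_al)
-/

set_option autoImplicit false
set_option linter.unusedSimpArgs false

namespace Pool.Agent.J6H86.SB

open MvPolynomial

theorem comp_act {g : ℕ} (S T : VV g →ₗ[ℝ] VV g) (p : MvPolynomial (Fin (2 * g)) ℝ) :
    symAct S (symAct T p) = symAct (S ∘ₗ T) p := by
  rw [symAct_comp]; rfl

theorem Wv_mem {g i : ℕ} (hg : 1 ≤ g) (hi : i ≤ 2 * g) {p : MvPolynomial (Fin (2 * g)) ℝ}
    (h : symAct (alpha g (sn _ i) : VV g →ₗ[ℝ] VV g) p = p) : Wv g i ∈ transInv p := by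
  refine mem_transInv_of (v := curve g i) ?_ ?_ ?_
  · intro hv
    rcases Nat.lt_or_ge i (2 * g) with h3 | h3
    · have := congrFun hv ⟨i, h3⟩
      simp [curve, h3] at this
    · obtain rfl : i = 2 * g := by omega
      have := congrFun hv ⟨0, by omega⟩
      rw [curve_last_apply] at this
      norm_num at this
  · have := omegaL_sum (curve g i) (curve g i)
    rw [omegaL_apply, omega_self] at this
    exact this.symm
  · intro y
    rw [← eval_T (by omega), h]

/-- The auxiliary linear map. -/
noncomputable def NN (g : ℕ) : VV g →ₗ[ℝ] VV g :=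
  LinearMap.id + (omegaL (curve g 1)).smulRight (curve g 0) -
    (omegaL (curve g 0)).smulRight (curve g 0 + curve g 1)

theorem NN_apply (g : ℕ) (u : VV g) : NN g u = u + omega (curve g 1) u • curve g 0 -
    omega (curve g 0) u • (curve g 0 + curve g 1) := rfl

/-- **Step 1.** Correction of the value at the second generator. -/
theorem step1 {g k : ℕ} (hg : 2 ≤ g) (hk : 1 ≤ k) {G : MvPolynomial (Fin (2 * g)) ℝ}
    (hG : G.IsHomogeneous k) (F : ℕ → MvPolynomial (Fin (2 * g)) ℝ)
    (hF0 : ∀ j, 3 ≤ j → j ≤ 2 * g → symAct (alpha g (sn _ 0) : VV g →ₗ[ℝ] VV g) (F j) = F j)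
    (hc : ∀ j, 3 ≤ j → j ≤ 2 * g → symAct (alpha g (sn _ j) : VV g →ₗ[ℝ] VV g) G - G =
      symAct (alpha g (sn _ 1) : VV g →ₗ[ℝ] VV g) (F j) - F j) :
    symAct (alpha g (sn _ 0) : VV g →ₗ[ℝ] VV g) (symAct (NN g) G) = symAct (NN g) G ∧
    (∀ j, 2 ≤ j → Ev g j ∈ transInv (G - (symAct (alpha g (sn _ 1) : VV g →ₗ[ℝ] VV g)
      (symAct (NN g) G) - symAct (NN g) G))) ∧
    (∀ y : VV g, y ⟨0, by omega⟩ = 0 → eval y (G - (symAct (alpha g (sn _ 1) : VV g →ₗ[ℝ] VV g)
      (symAct (NN g) G) - symAct (NN g) G)) = 0) := by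
  have hT : ∀ i, i < 2 * g + 1 → ∀ u : VV g, (alpha g (sn _ i) : VV g →ₗ[ℝ] VV g) u =
      u + omega (curve g i) u • curve g i := fun i hi u => alpha_sn g hi u
  have a0 := omega_up (g := g) (i := 0) (by omega)
  have d0 := omega_down (g := g) (i := 0) (by omega)
  have s0 := omega_self (curve g 0)
  have s1 := omega_self (curve g 1)
  simp only [zero_add] at a0 d0
  have i0 : ((alpha g (sn _ 0) : VV g →ₗ[ℝ] VV g) ∘ₗ NN g) = NN g := by
    refine LinearMap.ext fun u => ?_
    simp only [LinearMap.comp_apply]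
    rw [hT 0 (by omega)]
    have : omega (curve g 0) (NN g u) = 0 := by
      simp only [NN_apply, omega_lin, omega_sub, omega_smul, a0, s0]
      ring
    rw [this, zero_smul, add_zero]
  have hT1N : ∀ u, (alpha g (sn _ 1) : VV g →ₗ[ℝ] VV g) (NN g u) =
      u + (omegaL (curve g 1) - omegaL (curve g 0)) u • curve g 0 := by
    intro u
    rw [hT 1 (by omega)]
    simp only [NN_apply, omega_lin, omega_sub, omega_smul, a0, s0, d0, s1, LinearMap.sub_apply,
      omegaL_apply]
    module
  have key : ∀ j, 3 ≤ j → j ≤ 2 * g → symAct (alpha g (sn _ j) : VV g →ₗ[ℝ] VV g)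
      (G - (symAct (alpha g (sn _ 1) : VV g →ₗ[ℝ] VV g) (symAct (NN g) G) - symAct (NN g) G)) =
      G - (symAct (alpha g (sn _ 1) : VV g →ₗ[ℝ] VV g) (symAct (NN g) G) - symAct (NN g) G) := by
    intro j hj hj2
    have b0 := omega_far' (g := g) (i := 0) (j := j) (by omega) (by omega)
    have b1 := omega_far' (g := g) (i := 1) (j := j) (by omega) (by omega)
    have b2 := omega_far (g := g) (i := 0) (j := j) (by omega) (by omega)
    have b3 := omega_far (g := g) (i := 1) (j := j) (by omega) (by omega)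
    have hW0 : (fun l => omegaL (curve g 0) (Pi.single l 1)) ∈ transInv (F j) :=
      Wv_mem (by omega) (by omega) (hF0 j hj hj2)
    have e1 : ((alpha g (sn _ j) : VV g →ₗ[ℝ] VV g) ∘ₗ NN g) =
        NN g ∘ₗ (alpha g (sn _ j) : VV g →ₗ[ℝ] VV g) := by
      refine LinearMap.ext fun u => ?_
      simp only [LinearMap.comp_apply]
      rw [hT j (by omega), hT j (by omega)]
      simp only [NN_apply, omega_lin, omega_sub, omega_smul, b0, b1, b2, b3]
      module
    have e2 : symAct (NN g ∘ₗ (alpha g (sn _ 1) : VV g →ₗ[ℝ] VV g)) (F j) = F j := by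
      have : symAct (LinearMap.id : VV g →ₗ[ℝ] VV g) (F j) = F j := by rw [symAct_id]; rfl
      conv_rhs => rw [← this]
      refine symAct_congr hW0 (v := -(curve g 0 + curve g 1)) fun u => ?_
      simp only [LinearMap.comp_apply, LinearMap.id_apply]
      rw [hT 1 (by omega)]
      simp only [NN_apply, omega_lin, omega_sub, omega_smul, a0, d0, s0, s1, omegaL_apply]
      module
    have e3 : symAct ((alpha g (sn _ 1) : VV g →ₗ[ℝ] VV g) ∘ₗ NN g) (F j) = symAct (NN g) (F j) := by
      refine symAct_congr hW0 (v := curve g 1) fun u => ?_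
      simp only [LinearMap.comp_apply]
      rw [hT1N]
      simp only [NN_apply, omegaL_apply, LinearMap.sub_apply]
      module
    have e4 : ((alpha g (sn _ j) : VV g →ₗ[ℝ] VV g) ∘ₗ (alpha g (sn _ 1) : VV g →ₗ[ℝ] VV g)) =
        (alpha g (sn _ 1) : VV g →ₗ[ℝ] VV g) ∘ₗ (alpha g (sn _ j) : VV g →ₗ[ℝ] VV g) := by
      refine LinearMap.ext fun u => ?_
      simp only [LinearMap.comp_apply]
      rw [hT j (by omega), hT 1 (by omega), hT 1 (by omega), hT j (by omega)]
      simp only [omega_lin, omega_smul, b1, b3]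
      module
    -- the difference `σ_j P - P`
    have hD : symAct (alpha g (sn _ j) : VV g →ₗ[ℝ] VV g) (symAct (NN g) G) =
        symAct (NN g) G + (F j - symAct (NN g) (F j)) := by
      have h1 := congrArg (symAct (NN g)) (hc j hj hj2)
      rw [map_sub, map_sub, comp_act, comp_act, e2] at h1
      rw [comp_act, e1]
      linear_combination h1
    have hc' := hc j hj hj2
    have e5 : symAct (alpha g (sn _ j) : VV g →ₗ[ℝ] VV g)
        (symAct (alpha g (sn _ 1) : VV g →ₗ[ℝ] VV g) (symAct (NN g) G)) =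
        symAct (alpha g (sn _ 1) : VV g →ₗ[ℝ] VV g)
          (symAct (alpha g (sn _ j) : VV g →ₗ[ℝ] VV g) (symAct (NN g) G)) := by
      rw [comp_act, e4, ← comp_act]
    have e6 : symAct (alpha g (sn _ 1) : VV g →ₗ[ℝ] VV g) (symAct (NN g) (F j)) =
        symAct (NN g) (F j) := by
      rw [comp_act, e3]
    rw [map_sub, map_sub, e5, hD, map_add, map_sub, e6]
    linear_combination hc'
  refine ⟨by rw [comp_act, i0], ?_, ?_⟩
  · intro j hj
    refine down (a := 2) (fun i h1 h2 => Wv_mem (by omega) h2 (key i (by omega) h2)) (2 * g) j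
      (by omega) hj
  · set G' := G - (symAct (alpha g (sn _ 1) : VV g →ₗ[ℝ] VV g) (symAct (NN g) G) -
      symAct (NN g) G) with hG'
    have hE : ∀ j, 2 ≤ j → Ev g j ∈ transInv G' := fun j hj =>
      down (a := 2) (fun i h1 h2 => Wv_mem (by omega) h2 (key i (by omega) h2)) (2 * g) j
        (by omega) hj
    -- the value on the line
    have hline : ∀ t : ℝ, eval (t • Ev g 1) G' = 0 := by
      intro t
      have hc0 : curve g 0 ⬝ᵥ (t • Ev g 1) = 0 := by
        rw [curve_single (by omega), single_dotProduct]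
        simp [Ev]
      have h1 : eval (t • Ev g 1) (symAct (alpha g (sn _ 1) : VV g →ₗ[ℝ] VV g)
          (symAct (NN g) G)) = eval (t • Ev g 1) G := by
        rw [comp_act, eval_symAct]
        congr 2
        funext l
        rw [LinearMap.comp_apply, hT1N, add_dotProduct, smul_dotProduct, hc0, smul_zero, add_zero,
          single_dotProduct, one_mul]
      have h2 : eval (t • Ev g 1) (symAct (NN g) G) = 0 := by
        rw [eval_symAct]
        have : (fun l => NN g (Pi.single l 1) ⬝ᵥ (t • Ev g 1)) = (0 : ℝ) • (0 : VV g) := by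
          funext l
          have hc1 : curve g 1 ⬝ᵥ (t • Ev g 1) = t := by
            rw [curve_single (by omega), single_dotProduct]
            simp [Ev]
          rw [NN_apply, sub_dotProduct, add_dotProduct, smul_dotProduct, smul_dotProduct,
            add_dotProduct, hc0, hc1, single_dotProduct, ww_apply (i := 0) (by omega)]
          by_cases hl : (l : ℕ) = 1 <;> simp [Ev, hl]
        rw [this, eval_smul_homog hG, zero_pow (by omega), zero_mul]
      rw [hG', map_sub, map_sub, h1, h2]
      ring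
    intro y hy
    have h1 : y = y ⟨1, by omega⟩ • Ev g 1 +
        (1 : ℝ) • ∑ j : Fin (2 * g), (if 2 ≤ (j : ℕ) then y j else 0) • Ev g j := by
      funext m
      rw [one_smul, Pi.add_apply, Pi.smul_apply, Finset.sum_apply, Finset.sum_eq_single m]
      · rcases Nat.lt_or_ge (m : ℕ) 2 with h | h
        · rcases Nat.eq_zero_or_pos (m : ℕ) with h0 | h0
          · have : m = ⟨0, by omega⟩ := Fin.ext h0
            rw [this, hy]
            simp [Ev]
          · have : m = ⟨1, by omega⟩ := Fin.ext (by simp; omega)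
            rw [this]
            simp [Ev]
        · have h2 : (m : ℕ) ≠ 1 := by omega
          simp [Ev, h, h2]
      · intro b _ hb
        have : (m : ℕ) ≠ (b : ℕ) := fun h0 => hb (Fin.ext h0.symm)
        simp [Ev, this]
      · simp
    have h2 : (∑ j : Fin (2 * g), (if 2 ≤ (j : ℕ) then y j else 0) • Ev g j) ∈ transInv G' := by
      refine Submodule.sum_mem _ fun j _ => ?_
      by_cases h : 2 ≤ (j : ℕ)
      · exact Submodule.smul_mem _ _ (hE j h)
      · rw [if_neg h, zero_smul]; exact Submodule.zero_mem _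
    rw [h1, h2, hline]

/-- The points in the span of the first four coordinate vectors. -/
def pt (g : ℕ) (x y z w : ℝ) : VV g := x • Ev g 0 + y • Ev g 1 + z • Ev g 2 + w • Ev g 3

theorem evT0 {g : ℕ} (hg : 2 ≤ g) (p : MvPolynomial (Fin (2 * g)) ℝ) (x y z w : ℝ) :
    eval (pt g x y z w) (symAct (alpha g (sn _ 0) : VV g →ₗ[ℝ] VV g) p) =
      eval (pt g x (y + x) z w) p := by
  rw [eval_T (by omega), Wv_zero (by omega), curve_single (by omega), single_dotProduct]
  congr 2
  simp only [pt, Pi.add_apply, Pi.smul_apply, Ev]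
  norm_num
  module

theorem evT1 {g : ℕ} (hg : 2 ≤ g) (p : MvPolynomial (Fin (2 * g)) ℝ) (x y z w : ℝ) :
    eval (pt g x y z w) (symAct (alpha g (sn _ 1) : VV g →ₗ[ℝ] VV g) p) =
      eval (pt g (x - y) y (z + y) w) p := by
  have h : (pt g x y z w) ⟨1, by omega⟩ = y := by
    simp only [pt, Pi.add_apply, Pi.smul_apply, Ev]
    norm_num
  rw [eval_T (by omega), Wv_eq (by omega) (by omega), curve_single (by omega), single_dotProduct, h]
  congr 2
  simp only [pt]
  norm_num
  module

theorem evT2 {g : ℕ} (hg : 2 ≤ g) (p : MvPolynomial (Fin (2 * g)) ℝ) (x y z w : ℝ) :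
    eval (pt g x y z w) (symAct (alpha g (sn _ 2) : VV g →ₗ[ℝ] VV g) p) =
      eval (pt g x (y - z) z (w + z)) p := by
  have h : (pt g x y z w) ⟨2, by omega⟩ = z := by
    simp only [pt, Pi.add_apply, Pi.smul_apply, Ev]
    norm_num
  rw [eval_T (by omega), Wv_eq (by omega) (by omega), curve_single (by omega), single_dotProduct, h]
  congr 2
  simp only [pt]
  norm_num
  module

/-- **Step 2.** The corrected value at the second generator vanishes. -/
theorem step2 {g k : ℕ} (hg : 2 ≤ g) (hk : Even k) (hk2 : 2 ≤ k)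
    {G M : MvPolynomial (Fin (2 * g)) ℝ} (hG : G.IsHomogeneous k)
    (hE : ∀ j, 2 ≤ j → Ev g j ∈ transInv G)
    (hy0 : ∀ y : VV g, y ⟨0, by omega⟩ = 0 → eval y G = 0)
    (hM : symAct (alpha g (sn _ 0) : VV g →ₗ[ℝ] VV g) M = M)
    (r01 : G + symAct (alpha g (sn _ 1) : VV g →ₗ[ℝ] VV g)
        (symAct (alpha g (sn _ 0) : VV g →ₗ[ℝ] VV g) G) =
      symAct (alpha g (sn _ 0) : VV g →ₗ[ℝ] VV g) G)
    (r12 : G + symAct (alpha g (sn _ 1) : VV g →ₗ[ℝ] VV g) M +
        symAct (alpha g (sn _ 1) : VV g →ₗ[ℝ] VV g)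
          (symAct (alpha g (sn _ 2) : VV g →ₗ[ℝ] VV g) G) =
      M + symAct (alpha g (sn _ 2) : VV g →ₗ[ℝ] VV g) G +
        symAct (alpha g (sn _ 2) : VV g →ₗ[ℝ] VV g)
          (symAct (alpha g (sn _ 1) : VV g →ₗ[ℝ] VV g) M)) : G = 0 := by
  have hGpt : ∀ x y z w, eval (pt g x y z w) G = eval (pt g x y 0 0) G := by
    intro x y z w
    have h3 := hE 3 (by omega) w (x • Ev g 0 + y • Ev g 1 + z • Ev g 2)
    have h2 := hE 2 (by omega) z (x • Ev g 0 + y • Ev g 1)
    simp only [pt, zero_smul, add_zero]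
    rw [h3, h2]
  have hMpt : ∀ x y z w, eval (pt g x y z w) M = eval (pt g x 0 z w) M := by
    intro x y z w
    have h1 : Wv g 0 ∈ transInv M := Wv_mem (by omega) (by omega) hM
    rw [Wv_zero (by omega)] at h1
    have h2 := h1 y (pt g x 0 z w)
    rw [← h2]
    congr 2
    simp only [pt]
    module
  have hpt0 : ∀ x y z w, (pt g x y z w) ⟨0, by omega⟩ = x := by
    intro x y z w
    simp only [pt, Pi.add_apply, Pi.smul_apply, Ev]
    norm_num
  have hG2 : ∀ x y, eval (pt g x y 0 0) G = 0 := by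
    refine funeq hk hk2 (fun x y => eval (pt g x y 0 0) G) ?_ ?_ ?_ ?_ ?_
    · intro t x y
      have := eval_smul_homog hG t (pt g x y 0 0)
      rw [← this]
      congr 2
      simp only [pt]
      module
    · intro y
      exact hy0 _ (hpt0 _ _ _ _)
    · intro x y
      have := congrArg (eval (pt g x y 0 0)) r01
      rw [map_add, evT1 hg, evT0 hg, evT0 hg, hGpt (x - y)] at this
      rw [show y + (x - y) = x by ring, show y + x = x + y by ring] at this
      exact this
    · intro b
      refine ⟨fun x s => eval (pt g x 0 (b - x) s) M, fun x y s => ?_⟩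
      have := congrArg (eval (pt g x y (b - x) s)) r12
      simp only [map_add] at this
      rw [evT1 hg, evT1 hg, evT2 hg, evT2 hg, evT2 hg, evT1 hg, hGpt x y, hGpt (x - y), hGpt x (y - (b - x)),
        hMpt (x - y) y, hMpt x y, hMpt (x - (y - (b - x)))] at this
      simp only []
      have q1 : b - x + y = b - (x - y) := by ring
      have q2 : y - (b - (x - y)) = x - b := by ring
      have q3 : y - (b - x) = x + y - b := by ring
      have q4 : x - (x + y - b) = b - y := by ring
      have q5 : b - x + (x + y - b) = b - (b - y) := by ring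
      have q6 : s + (b - x) = s + b - x := by ring
      rw [q1, q2, q3, q4, q5, q6] at this
      linarith
    · refine ⟨aeval (fun j => Polynomial.C (Ev g 1 j) + Polynomial.X * Polynomial.C (Ev g 0 j)) G,
        fun x => ?_⟩
      have h2 : (Polynomial.aeval x : Polynomial ℝ →ₐ[ℝ] ℝ).comp (MvPolynomial.aeval
          (fun j => Polynomial.C (Ev g 1 j) + Polynomial.X * Polynomial.C (Ev g 0 j))) =
          MvPolynomial.aeval (pt g x 1 0 0) := by
        refine MvPolynomial.algHom_ext fun j => ?_
        rw [AlgHom.comp_apply, aeval_X, aeval_X]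
        simp [pt]
        ring
      exact congrArg (fun F => F G) h2
  refine MvPolynomial.funext fun y => ?_
  rw [map_zero]
  have h1 : y = pt g (y ⟨0, by omega⟩) (y ⟨1, by omega⟩) 0 0 +
      (1 : ℝ) • ∑ j : Fin (2 * g), (if 2 ≤ (j : ℕ) then y j else 0) • Ev g j := by
    funext m
    rw [one_smul, Pi.add_apply, Finset.sum_apply, Finset.sum_eq_single m]
    · rcases Nat.lt_or_ge (m : ℕ) 2 with h | h
      · rcases Nat.eq_zero_or_pos (m : ℕ) with h0 | h0
        · have : m = ⟨0, by omega⟩ := Fin.ext h0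
          rw [this]
          simp [Ev, pt]
        · have : m = ⟨1, by omega⟩ := Fin.ext (by simp; omega)
          rw [this]
          simp [Ev, pt]
      · have h2 : (m : ℕ) ≠ 1 := by omega
        have h3 : (m : ℕ) ≠ 0 := by omega
        simp [Ev, pt, h, h2, h3]
    · intro b _ hb
      have : (m : ℕ) ≠ (b : ℕ) := fun h0 => hb (Fin.ext h0.symm)
      simp [Ev, this]
    · simp
  have h2 : (∑ j : Fin (2 * g), (if 2 ≤ (j : ℕ) then y j else 0) • Ev g j) ∈ transInv G := by
    refine Submodule.sum_mem _ fun j _ => ?_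
    by_cases h : 2 ≤ (j : ℕ)
    · exact Submodule.smul_mem _ _ (hE j h)
    · rw [if_neg h, zero_smul]; exact Submodule.zero_mem _
  rw [h1, h2, hG2]

end Pool.Agent.J6H86.SB
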