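import Pool.Agent.J6H86.SB.StepB

/-!
# Vanishing of the first cohomology for `g ≥ 2` and even `k ≥ 2` (for MP_97e538_al)
-/

set_option autoImplicit false

namespace Pool.Agent.J6H86.SB

open MvPolynomial groupCohomology CategoryTheory

variable {g k : ℕ}

/-- The cocycle identity. -/
def Coc (f : Braid (2 * g + 1) → SymV g k) : Prop :=
  ∀ a b, f (a * b) = symRep g k a (f b) + f a

theorem Coc.sub {f : Braid (2 * g + 1) → SymV g k} (hf : Coc f) (m0 : SymV g k) :
    Coc fun b => f b - (symRep g k b m0 - m0) := by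
  intro a b
  simp only []
  rw [hf, map_mul, Module.End.mul_apply, map_sub, map_sub]
  abel

theorem Coc.comm {f : Braid (2 * g + 1) → SymV g k} (hf : Coc f) {i j : ℕ} (h : i + 1 < j)
    (hj : j < 2 * g + 1) : symRep g k (sn _ i) (f (sn _ j)) + f (sn _ i) =
      symRep g k (sn _ j) (f (sn _ i)) + f (sn _ j) := by
  rw [← hf, ← hf, sn_comm h hj]

theorem Coc.braid {f : Braid (2 * g + 1) → SymV g k} (hf : Coc f) {i : ℕ} (h : i + 1 < 2 * g + 1) :
    symRep g k (sn _ i) (symRep g k (sn _ (i + 1)) (f (sn _ i))) +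
        (symRep g k (sn _ i) (f (sn _ (i + 1))) + f (sn _ i)) =
      symRep g k (sn _ (i + 1)) (symRep g k (sn _ i) (f (sn _ (i + 1)))) +
        (symRep g k (sn _ (i + 1)) (f (sn _ i)) + f (sn _ (i + 1))) := by
  have h1 := congrArg f (sn_braid h)
  rw [hf, hf, hf, hf, map_mul, map_mul, Module.End.mul_apply, Module.End.mul_apply] at h1
  exact h1

/-- The step for the first generator. -/
theorem st0 (hg : 2 ≤ g) (hk : 1 ≤ k) (f : Braid (2 * g + 1) → SymV g k) (hf : Coc f) :
    ∃ m1 : SymV g k, f (sn _ 0) = symRep g k (sn _ 0) m1 - m1 := by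
  have h := step0 hg hk (f (sn _ 0)).2 (fun j => (f (sn _ j) : MvPolynomial (Fin (2 * g)) ℝ)) ?_
  · obtain ⟨u, hu, hu2⟩ := Submodule.mem_map.1 h
    exact ⟨⟨u, hu⟩, Subtype.ext hu2.symm⟩
  · intro j h1 h2
    have h3 := hf.comm (i := 0) (j := j) (by omega) (by omega)
    have h4 : symRep g k (sn _ j) (f (sn _ 0)) - f (sn _ 0) =
        symRep g k (sn _ 0) (f (sn _ j)) - f (sn _ j) := by
      rw [sub_eq_sub_iff_add_eq_add, h3]
    exact congrArg Subtype.val h4

/-- The step for the second generator. -/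
theorem st1 (hg : 2 ≤ g) (hk : Even k) (hk2 : 2 ≤ k) (f : Braid (2 * g + 1) → SymV g k)
    (hf : Coc f) (h0 : f (sn _ 0) = 0) :
    ∃ m1 : SymV g k, symRep g k (sn _ 0) m1 = m1 ∧ f (sn _ 1) = symRep g k (sn _ 1) m1 - m1 := by
  obtain ⟨c1, c2, c3⟩ := step1 hg (by omega) (f (sn _ 1)).2
    (fun j => (f (sn _ j) : MvPolynomial (Fin (2 * g)) ℝ))
    (by
      intro j h1 h2
      have h3 := hf.comm (i := 0) (j := j) (by omega) (by omega)
      rw [h0, map_zero, add_zero, zero_add] at h3
      exact congrArg Subtype.val h3)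
    (by
      intro j h1 h2
      have h3 := hf.comm (i := 1) (j := j) (by omega) (by omega)
      have h4 : symRep g k (sn _ j) (f (sn _ 1)) - f (sn _ 1) =
          symRep g k (sn _ 1) (f (sn _ j)) - f (sn _ j) := by
        rw [sub_eq_sub_iff_add_eq_add, h3]
      exact congrArg Subtype.val h4)
  let P : SymV g k := ⟨symAct (NN g) (f (sn _ 1)), symAct_homog _ (f (sn _ 1)).2⟩
  have hP : symRep g k (sn _ 0) P = P := Subtype.ext c1
  let f' : Braid (2 * g + 1) → SymV g k := fun b => f b - (symRep g k b P - P)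
  have hf' : Coc f' := hf.sub P
  have h0' : f' (sn _ 0) = 0 := by
    simp only [f']
    rw [h0, hP]; simp
  have hG : (f' (sn _ 1) : MvPolynomial (Fin (2 * g)) ℝ) = 0 := by
    refine step2 hg hk hk2 (M := (f' (sn _ 2) : MvPolynomial (Fin (2 * g)) ℝ))
      (f' (sn _ 1)).2 c2 c3 ?_ ?_ ?_
    · have h3 := hf'.comm (i := 0) (j := 2) (by omega) (by omega)
      rw [h0', map_zero, add_zero, zero_add] at h3
      exact congrArg Subtype.val h3
    · have h3 := hf'.braid (i := 0) (by omega)
      simp only [h0', map_zero, zero_add, add_zero] at h3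
      have h4 : f' (sn _ 1) + symRep g k (sn _ 1) (symRep g k (sn _ 0) (f' (sn _ 1))) =
          symRep g k (sn _ 0) (f' (sn _ 1)) := by
        rw [add_comm]; exact h3.symm
      exact congrArg Subtype.val h4
    · have h3 := hf'.braid (i := 1) (by omega)
      have h4 : f' (sn _ 1) + symRep g k (sn _ 1) (f' (sn _ 2)) +
          symRep g k (sn _ 1) (symRep g k (sn _ 2) (f' (sn _ 1))) =
          f' (sn _ 2) + symRep g k (sn _ 2) (f' (sn _ 1)) +
          symRep g k (sn _ 2) (symRep g k (sn _ 1) (f' (sn _ 2))) := by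
        have h5 : symRep g k (sn _ 1) (symRep g k (sn _ 2) (f' (sn _ 1))) +
            (symRep g k (sn _ 1) (f' (sn _ 2)) + f' (sn _ 1)) =
            symRep g k (sn _ 2) (symRep g k (sn _ 1) (f' (sn _ 2))) +
            (symRep g k (sn _ 2) (f' (sn _ 1)) + f' (sn _ 2)) := h3
        calc _ = symRep g k (sn _ 1) (symRep g k (sn _ 2) (f' (sn _ 1))) +
            (symRep g k (sn _ 1) (f' (sn _ 2)) + f' (sn _ 1)) := by abel
          _ = _ := h5
          _ = _ := by abel
      exact congrArg Subtype.val h4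
  refine ⟨P, hP, ?_⟩
  have : f' (sn _ 1) = 0 := Subtype.ext hG
  exact sub_eq_zero.1 this

/-- The step for the middle generators. -/
theorem stD {n : ℕ} (hn : n + 3 < 2 * g + 1) (f : Braid (2 * g + 1) → SymV g k)
    (hf : Coc f) (h0 : ∀ i, i < n + 2 → f (sn _ i) = 0) :
    ∃ m1 : SymV g k, (∀ i, i < n + 2 → symRep g k (sn _ i) m1 = m1) ∧
      f (sn _ (n + 2)) = symRep g k (sn _ (n + 2)) m1 - m1 := by
  obtain ⟨c1, c2⟩ := stepD (n := n) hn (m := (f (sn _ (n + 2)) : MvPolynomial (Fin (2 * g)) ℝ))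
    (by
      intro i hi
      have h3 := hf.comm (i := i) (j := n + 2) (by omega) (by omega)
      rw [h0 i (by omega), map_zero, add_zero, zero_add] at h3
      exact congrArg Subtype.val h3)
    (by
      have h3 := hf.braid (i := n + 1) (by omega)
      rw [h0 (n + 1) (by omega), map_zero, map_zero, zero_add, add_zero, zero_add] at h3
      have h4 : f (sn _ (n + 2)) + symRep g k (sn _ (n + 2)) (symRep g k (sn _ (n + 1))
          (f (sn _ (n + 2)))) = symRep g k (sn _ (n + 1)) (f (sn _ (n + 2))) := by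
        rw [add_comm]; exact h3.symm
      exact congrArg Subtype.val h4)
  refine ⟨⟨symAct (RR g n) (f (sn _ (n + 2))), symAct_homog _ (f (sn _ (n + 2))).2⟩,
    fun i hi => Subtype.ext (c1 i (by omega)), Subtype.ext c2.symm⟩

/-- The step for the last generator. -/
theorem stL (hg : 1 ≤ g) (hk2 : 2 ≤ k) (f : Braid (2 * g + 1) → SymV g k)
    (hf : Coc f) (h0 : ∀ i, i < 2 * g → f (sn _ i) = 0) : f (sn _ (2 * g)) = 0 := by
  set mm : SymV g k := f (sn _ (2 * g)) with hmm
  obtain ⟨a, ha⟩ := fix_last hg mm.2 fun i hi => by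
    have h3 := hf.comm (i := i) (j := 2 * g) (by omega) (by omega)
    rw [h0 i (by omega), map_zero, add_zero, zero_add] at h3
    exact congrArg Subtype.val h3
  have hb := hf.braid (i := 2 * g - 1) (by omega)
  have e : 2 * g - 1 + 1 = 2 * g := by omega
  rw [e, h0 (2 * g - 1) (by omega), map_zero, map_zero, zero_add, add_zero, zero_add,
    ← hmm] at hb
  have hb2 := congrArg (Subtype.val) hb
  have hτ : ((symRep g k (sn _ (2 * g - 1)) mm : SymV g k) : MvPolynomial (Fin (2 * g)) ℝ) =
      C a * lin (curve g (2 * g) + curve g (2 * g - 1)) ^ k := by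
    rw [symRep_coe, ha, symAct_pow]
    have : (alpha g (sn _ (2 * g - 1)) : VV g →ₗ[ℝ] VV g) (curve g (2 * g)) =
      curve g (2 * g) + curve g (2 * g - 1) := alpha_tau hg
    rw [this]
  have hσ : ((symRep g k (sn _ (2 * g)) (symRep g k (sn _ (2 * g - 1)) mm) : SymV g k) :
      MvPolynomial (Fin (2 * g)) ℝ) = C a * lin (curve g (2 * g - 1)) ^ k := by
    rw [symRep_coe, hτ, symAct_pow]
    have : (alpha g (sn _ (2 * g)) : VV g →ₗ[ℝ] VV g) (curve g (2 * g) + curve g (2 * g - 1)) =
      curve g (2 * g - 1) := alpha_sigma hg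
    rw [this]
  have hb3 : C a * lin (curve g (2 * g) + curve g (2 * g - 1)) ^ k =
      C a * lin (curve g (2 * g - 1)) ^ k + C a * lin (curve g (2 * g)) ^ k := by
    rw [← hτ, ← hσ, ← ha]
    exact hb2
  let y : VV g := Pi.single ⟨2 * g - 1, by omega⟩ 1 - Pi.single ⟨0, by omega⟩ 1
  have hodd : ¬ Even (2 * g - 1) := by rw [Nat.even_iff]; omega
  have hL : eval y (lin (curve g (2 * g))) = 1 := by
    rw [eval_lin, dotProduct_sub, dotProduct_single, dotProduct_single, curve_last_apply,
      curve_last_apply]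
    simp [hodd]
  have hM : eval y (lin (curve g (2 * g - 1))) = 1 := by
    rw [eval_M hg]
    have : 2 * g - 1 ≠ 0 := by omega
    simp [y, this]
  have h5 := congrArg (eval y) hb3
  rw [lin_add, map_add, map_mul, map_mul, map_mul, map_pow, map_pow, map_pow, map_add, eval_C, hL,
    hM] at h5
  have h6 : a * ((2 : ℝ) ^ k - 2) = 0 := by
    norm_num at h5
    linarith
  have h7 : (2 : ℝ) ^ 2 ≤ 2 ^ k := pow_le_pow_right₀ (by norm_num) hk2
  have h8 : a = 0 := by
    rcases mul_eq_zero.1 h6 with h | h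
    · exact h
    · exfalso; norm_num at h7; linarith
  refine Subtype.ext ?_
  rw [ha, h8]; simp

/-- Every cocycle is a coboundary on the generators. -/
theorem allsteps (hg : 2 ≤ g) (hk : Even k) (hk2 : 2 ≤ k) (f : Braid (2 * g + 1) → SymV g k)
    (hf : Coc f) : ∀ n, n ≤ 2 * g + 1 →
      ∃ m0 : SymV g k, ∀ i, i < n → f (sn _ i) = symRep g k (sn _ i) m0 - m0 := by
  intro n
  induction n with
  | zero => intro _; exact ⟨0, fun i hi => by omega⟩
  | succ n ih =>
    intro hn
    obtain ⟨m0, hm0⟩ := ih (by omega)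
    let f' : Braid (2 * g + 1) → SymV g k := fun b => f b - (symRep g k b m0 - m0)
    have hf' : Coc f' := hf.sub m0
    have h0 : ∀ i, i < n → f' (sn _ i) = 0 := fun i hi => sub_eq_zero.2 (hm0 i hi)
    have hstep : ∃ m1 : SymV g k, (∀ i, i < n → symRep g k (sn _ i) m1 = m1) ∧
        f' (sn _ n) = symRep g k (sn _ n) m1 - m1 := by
      rcases Nat.lt_or_ge n (2 * g) with h | h
      · match n, h, h0 with
        | 0, _, _ =>
          obtain ⟨m1, hm1⟩ := st0 hg (by omega) f' hf'
          exact ⟨m1, fun i hi => by omega, hm1⟩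
        | 1, _, h0 =>
          obtain ⟨m1, hm1, hm2⟩ := st1 hg hk hk2 f' hf' (h0 0 (by omega))
          exact ⟨m1, fun i hi => by obtain rfl : i = 0 := by omega
                                    exact hm1, hm2⟩
        | n + 2, h, h0 => exact stD (by omega) f' hf' h0
      · obtain rfl : n = 2 * g := by omega
        refine ⟨0, fun i hi => map_zero _, ?_⟩
        rw [stL (by omega) hk2 f' hf' h0, map_zero, sub_zero]
    obtain ⟨m1, hm1, hm2⟩ := hstep
    refine ⟨m0 + m1, fun i hi => ?_⟩
    rcases Nat.lt_or_ge i n with h | h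
    · rw [map_add, hm1 i h, hm0 i h]; abel
    · obtain rfl : i = n := by omega
      have h2 : f (sn _ i) - (symRep g k (sn _ i) m0 - m0) = symRep g k (sn _ i) m1 - m1 := hm2
      rw [map_add, sub_eq_iff_eq_add.1 h2]; abel

/-- **`H¹ = 0` for `g ≥ 2` and even `k ≥ 2`.** -/
theorem h1_even (hg : 2 ≤ g) (hk : Even k) (hk2 : 2 ≤ k) :
    Subsingleton (groupCohomology (Rep.of (symRep g k)) 1) := by
  refine subsingleton_of_forall_eq 0 fun x => ?_
  induction x using H1_induction_on with
  | h f =>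
    have hf : ∀ a b, f (a * b) = symRep g k a (f b) + f a := (mem_cocycles₁_iff f).1 f.2
    obtain ⟨m0, h1⟩ := allsteps hg hk hk2 f hf (2 * g + 1) le_rfl
    rw [H1π_eq_zero_iff]
    refine ⟨m0, ?_⟩
    funext b
    change symRep g k b m0 - m0 = f b
    refine (coc_ext (symRep g k) f (fun b => symRep g k b m0 - m0) hf ?_ h1 b).symm
    intro a b
    rw [map_mul, Module.End.mul_apply, map_sub]
    abel

end Pool.Agent.J6H86.SB
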