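import Pool.Agent.J6H86.SB.Fin

/-!
# Extending the vanishing of a cocycle along the chain (for MP_97e538_al)
-/

set_option autoImplicit false
set_option linter.unusedSimpArgs false

namespace Pool.Agent.J6H86.SB

open MvPolynomial

/-- Two linear maps that differ by a functional whose coordinate vector is in `transInv p` act in the
same way on `p`. -/
theorem symAct_congr {g : ℕ} {p : MvPolynomial (Fin (2 * g)) ℝ} {S S' : VV g →ₗ[ℝ] VV g}
    {l : VV g →ₗ[ℝ] ℝ} {v : VV g} (hl : (fun j => l (Pi.single j 1)) ∈ transInv p)
    (h : ∀ u, S u = S' u + l u • v) : symAct S p = symAct S' p := by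
  refine MvPolynomial.funext fun y => ?_
  rw [eval_symAct, eval_symAct]
  conv_rhs => rw [← hl (v ⬝ᵥ y)]
  congr 2
  funext j
  rw [h, add_dotProduct, smul_dotProduct]
  simp [mul_comm]

/-- The auxiliary linear map. -/
noncomputable def RR (g n : ℕ) : VV g →ₗ[ℝ] VV g :=
  LinearMap.id - (omegaL (curve g (n + 2))).smulRight (curve g (n + 3)) -
    (omegaL (curve g (n + 1))).smulRight (curve g (n + 2) - curve g (n + 3)) +
    (omegaL (curve g n)).smulRight (curve g (n + 2) - curve g (n + 1) - curve g (n + 3))

theorem RR_apply (g n : ℕ) (u : VV g) : RR g n u = u -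
    omega (curve g (n + 2)) u • curve g (n + 3) -
    omega (curve g (n + 1)) u • (curve g (n + 2) - curve g (n + 3)) +
    omega (curve g n) u • (curve g (n + 2) - curve g (n + 1) - curve g (n + 3)) := rfl

theorem omega_down {g i : ℕ} (h : i + 1 < 2 * g + 1) : omega (curve g (i + 1)) (curve g i) = -1 := by
  rw [omega_anti, omega_up h]

theorem omega_far' {g i j : ℕ} (h : i + 1 < j) (hj : j < 2 * g + 1) :
    omega (curve g j) (curve g i) = 0 := by
  rw [omega_anti, omega_far h hj, neg_zero]

theorem omega_lin {g : ℕ} (x y z : VV g) : omega x (y + z) = omega x y + omega x z :=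
  (omegaL x).map_add y z

theorem omega_sub {g : ℕ} (x y z : VV g) : omega x (y - z) = omega x y - omega x z :=
  (omegaL x).map_sub y z

theorem omega_smul {g : ℕ} (x y : VV g) (a : ℝ) : omega x (a • y) = a * omega x y :=
  (omegaL x).map_smul a y

/-- **Step D.** If a cocycle vanishes at `σ_0, …, σ_{n+1}`, then it can be corrected so that it also
vanishes at `σ_{n+2}`, provided there is one more curve. -/
theorem stepD {g n : ℕ} (hn : n + 3 < 2 * g + 1) {m : MvPolynomial (Fin (2 * g)) ℝ}
    (hfix : ∀ i, i ≤ n → symAct (alpha g (sn _ i) : VV g →ₗ[ℝ] VV g) m = m)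
    (hb : m + symAct (alpha g (sn _ (n + 2)) : VV g →ₗ[ℝ] VV g)
      (symAct (alpha g (sn _ (n + 1)) : VV g →ₗ[ℝ] VV g) m) =
      symAct (alpha g (sn _ (n + 1)) : VV g →ₗ[ℝ] VV g) m) :
    (∀ i, i ≤ n + 1 → symAct (alpha g (sn _ i) : VV g →ₗ[ℝ] VV g) (symAct (RR g n) m) =
      symAct (RR g n) m) ∧
    symAct (alpha g (sn _ (n + 2)) : VV g →ₗ[ℝ] VV g) (symAct (RR g n) m) - symAct (RR g n) m =
      m := by
  have hT : ∀ i, i < 2 * g + 1 → ∀ u : VV g, (alpha g (sn _ i) : VV g →ₗ[ℝ] VV g) u =
      u + omega (curve g i) u • curve g i := fun i hi u => alpha_sn g hi u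
  have hW : ∀ i, i ≤ n → (fun j => omegaL (curve g i) (Pi.single j 1)) ∈ transInv m :=
    fun i hi => mem_transInv_of_fix (by omega) (hfix i hi)
  have comp : ∀ S T : VV g →ₗ[ℝ] VV g, ∀ p, symAct S (symAct T p) = symAct (S ∘ₗ T) p := by
    intro S T p
    rw [symAct_comp]; rfl
  have a1 := omega_up (g := g) (i := n) (by omega)
  have a2 := omega_up (g := g) (i := n + 1) (by omega)
  have a3 := omega_up (g := g) (i := n + 2) (by omega)
  have a4 := omega_far (g := g) (i := n) (j := n + 2) (by omega) (by omega)
  have a5 := omega_far (g := g) (i := n) (j := n + 3) (by omega) (by omega)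
  have a6 := omega_far (g := g) (i := n + 1) (j := n + 3) (by omega) (by omega)
  have d1 := omega_down (g := g) (i := n) (by omega)
  have d2 := omega_down (g := g) (i := n + 1) (by omega)
  have s0 := omega_self (curve g n)
  have s1 := omega_self (curve g (n + 1))
  have s2 := omega_self (curve g (n + 2))
  constructor
  · intro i hi
    rw [comp]
    rcases Nat.lt_or_ge i n with h | h
    · have b1 := omega_far (g := g) (i := i) (j := n + 1) (by omega) (by omega)
      have b2 := omega_far (g := g) (i := i) (j := n + 2) (by omega) (by omega)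
      have b3 := omega_far (g := g) (i := i) (j := n + 3) (by omega) (by omega)
      refine symAct_congr (hW i (by omega)) (v := curve g i) fun u => ?_
      simp only [LinearMap.comp_apply]
      rw [hT i (by omega)]
      congr 1
      simp only [RR_apply, omega_lin, omega_sub, omega_smul, b1, b2, b3, omegaL_apply]
      norm_num
    · rcases Nat.lt_or_ge n i with h' | h'
      · obtain rfl : i = n + 1 := by omega
        refine symAct_congr (hW n le_rfl) (v := curve g (n + 1)) fun u => ?_
        simp only [LinearMap.comp_apply]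
        rw [hT (n + 1) (by omega)]
        congr 1
        simp only [RR_apply, omega_lin, omega_sub, omega_smul, a2, a6, s1, omegaL_apply]
        congr 1
        ring
      · obtain rfl : i = n := by omega
        have e : ((alpha g (sn _ i) : VV g →ₗ[ℝ] VV g) ∘ₗ RR g i) = RR g i := by
          refine LinearMap.ext fun u => ?_
          simp only [LinearMap.comp_apply]
          rw [hT i (by omega)]
          have : omega (curve g i) (RR g i u) = 0 := by
            simp only [RR_apply, omega_lin, omega_sub, omega_smul, a1, a4, a5]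
            ring
          rw [this, zero_smul, add_zero]
        rw [e]
  · have h1 := congrArg (symAct (RR g n)) hb
    rw [map_add, comp, comp, comp] at h1
    have e1 : RR g n ∘ₗ (alpha g (sn _ (n + 1)) : VV g →ₗ[ℝ] VV g) =
        (alpha g (sn _ (n + 2)) : VV g →ₗ[ℝ] VV g) ∘ₗ RR g n := by
      refine LinearMap.ext fun u => ?_
      simp only [LinearMap.comp_apply]
      rw [hT (n + 1) (by omega), hT (n + 2) (by omega)]
      simp only [RR_apply, omega_lin, omega_sub, omega_smul, a1, a2, a3, a4, a5, a6, d1, d2, s0, s1,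
        s2]
      module
    have e2 : symAct (RR g n ∘ₗ (alpha g (sn _ (n + 2)) : VV g →ₗ[ℝ] VV g) ∘ₗ
        (alpha g (sn _ (n + 1)) : VV g →ₗ[ℝ] VV g)) m = m := by
      have : symAct (LinearMap.id : VV g →ₗ[ℝ] VV g) m = m := by rw [symAct_id]; rfl
      conv_rhs => rw [← this]
      refine symAct_congr (hW n le_rfl)
        (v := curve g (n + 2) - curve g (n + 1) - curve g (n + 3)) fun u => ?_
      simp only [LinearMap.comp_apply, LinearMap.id_apply]
      rw [hT (n + 1) (by omega), hT (n + 2) (by omega)]
      simp only [RR_apply, omega_lin, omega_sub, omega_smul, a1, a2, a3, a4, a5, a6, d1, d2, s0, s1,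
        s2, omegaL_apply]
      module
    rw [comp, ← e1, ← h1, LinearMap.comp_assoc, e2]
    ring

end Pool.Agent.J6H86.SB
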